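import Pool.Agent.helper15.P2.SpecC
import Pool.Agent.helper26.P2.IG
import Pool.Agent.helper17.P2.AVG

/-! Project P2 (MP_063734_an), row BSB: the subharmonic function `Ph + 4 log|W|`. -/

set_option autoImplicit false

open scoped ContDiff Topology ComplexConjugate ENNReal
open MeasureTheory Filter Set Metric

namespace Pool.Agent.P2B

open Pool.Agent.P2 Pool.Agent.P2I

/-! ### Averages over discs -/

theorem BSB_vol {z : ℂ} {s : ℝ} (hs : 0 < s) : 0 < volume.real (ball z s) :=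
  ENNReal.toReal_pos (measure_ball_pos volume z hs).ne' measure_ball_lt_top.ne

theorem BSB_avg_mono {f g : ℂ → ℝ} {z : ℂ} {s : ℝ} (hf : IntegrableOn f (ball z s)) (hg : IntegrableOn g (ball z s))
    (h : ∀ x ∈ ball z s, f x ≤ g x) : (⨍ x in ball z s, f x) ≤ ⨍ x in ball z s, g x := by
  rw [setAverage_eq, setAverage_eq, smul_eq_mul, smul_eq_mul]
  exact mul_le_mul_of_nonneg_left (setIntegral_mono_on hf hg measurableSet_ball h) (inv_nonneg.2 measureReal_nonneg)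

theorem BSB_avg_ge {g : ℂ → ℝ} {z : ℂ} {s a : ℝ} (hs : 0 < s) (hg : IntegrableOn g (ball z s))
    (h : ∀ x ∈ ball z s, a ≤ g x) : a ≤ ⨍ x in ball z s, g x := by
  have h1 := BSB_avg_mono (f := fun _ => a) (integrableOn_const measure_ball_lt_top.ne) hg h
  have h2 : (⨍ _x in ball z s, a) = a := by
    rw [setAverage_eq, setIntegral_const, smul_eq_mul, smul_eq_mul, ← mul_assoc, inv_mul_cancel₀ (BSB_vol hs).ne', one_mul]
  rwa [h2] at h1

theorem BSB_avg_add {f g : ℂ → ℝ} {z : ℂ} {s : ℝ} (hf : IntegrableOn f (ball z s)) (hg : IntegrableOn g (ball z s)) :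
    (⨍ x in ball z s, (f x + g x)) = (⨍ x in ball z s, f x) + ⨍ x in ball z s, g x := by
  rw [setAverage_eq, setAverage_eq, setAverage_eq, integral_add hf hg, smul_add]

theorem BSB_avg_mul {f : ℂ → ℝ} {z : ℂ} {s : ℝ} (a : ℝ) :
    (⨍ x in ball z s, a * f x) = a * ⨍ x in ball z s, f x := by
  rw [setAverage_eq, setAverage_eq, integral_const_mul, smul_eq_mul, smul_eq_mul]
  ring

/-! ### The supremum -/

theorem BSB_sup (hBJE : BJE_stmt) {ι : Type} [Nonempty ι] {c : ι → ℂ → ℂ} {m : ι → ℝ} (hm : ∀ n, 0 < m n) {L : ℝ}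
    (hL : 0 ≤ L) {z : ℂ} {s δ : ℝ} (hs : 0 < s) (hsδ : s < δ) (hc : ∀ n, DifferentiableOn ℂ (c n) (ball z δ))
    (hb : ∀ x ∈ ball z s, BddAbove (range fun n => Real.log ‖c n x‖ / m n))
    (hint : IntegrableOn (fun x => max L (⨆ n, Real.log ‖c n x‖ / m n)) (ball z s)) :
    max L (⨆ n, Real.log ‖c n z‖ / m n) ≤ ⨍ x in ball z s, max L (⨆ n, Real.log ‖c n x‖ / m n) := by
  have h0 : L ≤ ⨍ x in ball z s, max L (⨆ n, Real.log ‖c n x‖ / m n) :=
    BSB_avg_ge hs hint fun x _ => le_max_left _ _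
  refine max_le h0 (ciSup_le fun n => ?_)
  by_cases hn : c n z = 0
  · rw [hn, norm_zero, Real.log_zero, zero_div]
    exact hL.trans h0
  · obtain ⟨h1, h2⟩ := hBJE (c n) z s δ hs hsδ (hc n) hn
    have h3 : Real.log ‖c n z‖ / m n ≤ ⨍ x in ball z s, Real.log ‖c n x‖ / m n := by
      have e : (fun x => Real.log ‖c n x‖ / m n) = fun x => (m n)⁻¹ * Real.log ‖c n x‖ := by
        funext x
        rw [div_eq_inv_mul]
      rw [e, BSB_avg_mul, div_eq_inv_mul]
      exact mul_le_mul_of_nonneg_left h2 (inv_nonneg.2 (hm n).le)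
    refine h3.trans (BSB_avg_mono (h1.div_const _) hint fun x hx => ?_)
    exact (le_ciSup (hb x hx) n).trans (le_max_right _ _)

/-! ### The truncated function -/

open Classical in
/-- the truncated function -/
noncomputable def BSB_phi (W : ℂ → ℂ) (Φ : ℂ → ℝ) (K : ℝ) (z : ℂ) : ℝ :=
  if z ∈ ball (0 : ℂ) 1 ∧ W z ≠ 0 then max (Φ z + 4 * Real.log ‖W z‖) (-K) else -K

theorem BSB_phi_ge {W : ℂ → ℂ} {Φ : ℂ → ℝ} {K : ℝ} (z : ℂ) : -K ≤ BSB_phi W Φ K z := by
  unfold BSB_phi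
  split_ifs
  · exact le_max_right _ _
  · exact le_rfl

/-- the abstract situation -/
structure BSB_D (W : ℂ → ℂ) (Φ : ℂ → ℝ) (L A B : ℝ) : Prop where
  dW : DifferentiableOn ℂ W (ball 0 1)
  ae : ∀ᵐ z ∂(volume.restrict (ball (0 : ℂ) 1)), W z ≠ 0
  me : Measurable (({x : ℂ | x ∈ ball (0 : ℂ) 1 ∧ W x ≠ 0}).indicator Φ)
  L0 : 0 ≤ L
  A0 : 0 ≤ A
  B0 : 0 ≤ B
  lo : ∀ z, L ≤ Φ z
  up : ∀ z ∈ ball (0 : ℂ) (9 / 10), W z ≠ 0 → Φ z ≤ max L (A - 2 * Real.log ‖W z‖)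
  wb : ∀ z ∈ ball (0 : ℂ) (9 / 10), Real.log ‖W z‖ ≤ B
  mv : ∀ z : ℂ, ∀ s δ : ℝ, 0 < s → s < δ → ball z δ ⊆ {x : ℂ | x ∈ ball (0 : ℂ) 1 ∧ W x ≠ 0} → IntegrableOn Φ (ball z s) →
    Φ z ≤ ⨍ x in ball z s, Φ x

theorem BSB_upper {W : ℂ → ℂ} {Φ : ℂ → ℝ} {L A B : ℝ} (h : BSB_D W Φ L A B) {z : ℂ} (hz : z ∈ ball (0 : ℂ) (9 / 10))
    (hw : W z ≠ 0) : |Φ z + 4 * Real.log ‖W z‖| ≤ L + A + 4 * |Real.log ‖W z‖| ∧ Φ z + 4 * Real.log ‖W z‖ ≤ L + A + 4 * B ∧
      (0 ≤ L → ∀ K : ℝ, 0 ≤ K → -K < Φ z + 4 * Real.log ‖W z‖ → Real.exp (-(K + L + A)) < ‖W z‖) := by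
  have h1 := h.lo z
  have h2 := h.up z hz hw
  have h3 := h.wb z hz
  have hL := h.L0
  have hA := h.A0
  have hB := h.B0
  have h4 := neg_abs_le (Real.log ‖W z‖)
  have h5 := le_abs_self (Real.log ‖W z‖)
  have h6 := abs_nonneg (Real.log ‖W z‖)
  refine ⟨?_, ?_, ?_⟩
  · rw [abs_le]
    constructor
    · linarith
    · rcases le_max_iff.1 h2 with h7 | h7
      · linarith
      · linarith
  · rcases le_max_iff.1 h2 with h7 | h7
    · linarith
    · linarith
  · intro _ K hK hlt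
    have h8 : -(K + L + A) < Real.log ‖W z‖ := by
      rcases le_max_iff.1 h2 with h7 | h7
      · linarith
      · linarith
    calc Real.exp (-(K + L + A)) < Real.exp (Real.log ‖W z‖) := Real.exp_lt_exp.2 h8
      _ = ‖W z‖ := Real.exp_log (norm_pos_iff.2 hw)

theorem BSB_Wm {W : ℂ → ℂ} (hW : DifferentiableOn ℂ W (ball 0 1)) :
    MeasurableSet {z : ℂ | z ∈ ball (0 : ℂ) 1 ∧ W z ≠ 0} ∧ Measurable ((ball (0 : ℂ) 1).indicator (fun z => ‖W z‖)) := by
  have h2 : Measurable ((ball (0 : ℂ) 1).indicator (fun z => ‖W z‖)) :=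
    IG_meas_ind hW.continuousOn.norm
  refine ⟨?_, h2⟩
  have e : {z : ℂ | z ∈ ball (0 : ℂ) 1 ∧ W z ≠ 0} =
      {z | (ball (0 : ℂ) 1).indicator (fun z => ‖W z‖) z ≠ 0} := by
    ext z
    simp only [mem_ofPred_eq]
    by_cases hz : z ∈ ball (0 : ℂ) 1
    · rw [indicator_of_mem hz]
      simp [hz]
    · rw [indicator_of_notMem hz]
      simp only [ne_eq, not_true_eq_false, iff_false, not_and]
      intro h
      exact absurd h hz
  rw [e]
  exact h2 (measurableSet_singleton (0 : ℝ)).compl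

theorem BSB_open {W : ℂ → ℂ} (hW : DifferentiableOn ℂ W (ball 0 1)) : IsOpen {z : ℂ | z ∈ ball (0 : ℂ) 1 ∧ W z ≠ 0} := by
  have h1 := hW.continuousOn.isOpen_inter_preimage isOpen_ball (isOpen_compl_singleton (x := (0 : ℂ)))
  have e : {z : ℂ | z ∈ ball (0 : ℂ) 1 ∧ W z ≠ 0} = ball (0 : ℂ) 1 ∩ W ⁻¹' {0}ᶜ := by
    ext z
    simp
  rw [e]
  exact h1

theorem BSB_phi_meas {W : ℂ → ℂ} {Φ : ℂ → ℝ} {L A B : ℝ} (h : BSB_D W Φ L A B) (K : ℝ) : Measurable (BSB_phi W Φ K) := by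
  classical
  obtain ⟨h1, h2⟩ := BSB_Wm h.dW
  have e : BSB_phi W Φ K = fun z => if z ∈ {z : ℂ | z ∈ ball (0 : ℂ) 1 ∧ W z ≠ 0} then
      max (({x : ℂ | x ∈ ball (0 : ℂ) 1 ∧ W x ≠ 0}).indicator Φ z +
        4 * Real.log ((ball (0 : ℂ) 1).indicator (fun z => ‖W z‖) z)) (-K) else -K := by
    funext z
    unfold BSB_phi
    by_cases hz : z ∈ ball (0 : ℂ) 1 ∧ W z ≠ 0
    · rw [if_pos hz, if_pos (show z ∈ {z : ℂ | z ∈ ball (0 : ℂ) 1 ∧ W z ≠ 0} from hz),
        indicator_of_mem (show z ∈ {z : ℂ | z ∈ ball (0 : ℂ) 1 ∧ W z ≠ 0} from hz), indicator_of_mem hz.1]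
    · rw [if_neg hz, if_neg (show z ∉ {z : ℂ | z ∈ ball (0 : ℂ) 1 ∧ W z ≠ 0} from hz)]
  rw [e]
  refine Measurable.ite h1 (Measurable.max (h.me.add (measurable_const.mul ?_)) measurable_const) measurable_const
  exact Real.measurable_log.comp h2

theorem BSB_phi_bdd {W : ℂ → ℂ} {Φ : ℂ → ℝ} {L A B : ℝ} (h : BSB_D W Φ L A B) {K : ℝ} (hK : 0 ≤ K) :
    ∀ z ∈ ball (0 : ℂ) (9 / 10), |BSB_phi W Φ K z| ≤ L + A + 4 * B + K := by
  intro z hz
  have hL := h.L0
  have hA := h.A0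
  have hB := h.B0
  unfold BSB_phi
  split_ifs with hw
  · have h1 := (BSB_upper h hz hw.2).2.1
    rw [abs_le]
    constructor
    · have := le_max_right (Φ z + 4 * Real.log ‖W z‖) (-K)
      linarith
    · exact max_le (by linarith) (by linarith)
  · rw [abs_neg, abs_of_nonneg hK]
    linarith

/-- the truncated function has the local mean value property, uniformly -/
theorem BSB_mv (hBJE : BJE_stmt) {W : ℂ → ℂ} {Φ : ℂ → ℝ} {L A B : ℝ} (h : BSB_D W Φ L A B) {K : ℝ} (hK : 0 ≤ K) :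
    ∃ δ : ℝ, 0 < δ ∧ δ ≤ 1 / 10 ∧ ∀ z ∈ ball (0 : ℂ) (4 / 5), ∀ s : ℝ, 0 < s → s < δ →
      BSB_phi W Φ K z ≤ ⨍ x in ball z s, BSB_phi W Φ K x := by
  have hc0 : 0 < Real.exp (-(K + L + A)) := Real.exp_pos _
  have hWc : UniformContinuousOn W (closedBall 0 (9 / 10)) :=
    (isCompact_closedBall (0 : ℂ) (9 / 10)).uniformContinuousOn_of_continuous
      (h.dW.continuousOn.mono (closedBall_subset_ball (by norm_num)))
  obtain ⟨δ0, hδ0, hu⟩ := Metric.uniformContinuousOn_iff.1 hWc _ hc0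
  refine ⟨min δ0 (1 / 10), lt_min hδ0 (by norm_num), min_le_right _ _, ?_⟩
  intro z hz s hs hsδ
  have hzn : ‖z‖ < 4 / 5 := by simpa using hz
  have hsub : ∀ t : ℝ, t ≤ 1 / 10 → ball z t ⊆ ball (0 : ℂ) (9 / 10) := by
    intro t ht x hx
    have h1 : ‖x - z‖ < t := by simpa [dist_eq_norm] using hx
    simp only [mem_ball, dist_zero_right]
    calc ‖x‖ = ‖(x - z) + z‖ := by ring_nf
      _ ≤ ‖x - z‖ + ‖z‖ := norm_add_le _ _
      _ < 9 / 10 := by linarith
  have hs1 : s ≤ 1 / 10 := (hsδ.trans_le (min_le_right _ _)).le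
  have hint : IntegrableOn (BSB_phi W Φ K) (ball z s) := by
    refine Measure.integrableOn_of_bounded (M := L + A + 4 * B + K) measure_ball_lt_top.ne
      (BSB_phi_meas h K).aestronglyMeasurable ?_
    rw [ae_restrict_iff' measurableSet_ball]
    exact Eventually.of_forall (fun x hx => by rw [Real.norm_eq_abs]; exact BSB_phi_bdd h hK x (hsub s hs1 hx))
  by_cases hlt : -K < BSB_phi W Φ K z
  · have hz1 : z ∈ ball (0 : ℂ) (9 / 10) := ball_subset_ball (by norm_num) hz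
    have hw : z ∈ ball (0 : ℂ) 1 ∧ W z ≠ 0 := by
      by_contra hcon
      unfold BSB_phi at hlt
      rw [if_neg hcon] at hlt
      exact lt_irrefl _ hlt
    have hS : BSB_phi W Φ K z = Φ z + 4 * Real.log ‖W z‖ := by
      unfold BSB_phi at hlt ⊢
      rw [if_pos hw] at hlt ⊢
      exact max_eq_left (le_of_lt (by
        rcases lt_max_iff.1 hlt with h1 | h1
        · exact h1
        · exact absurd h1 (lt_irrefl _)))
    rw [hS] at hlt
    have hWz := (BSB_upper h hz1 hw.2).2.2 h.L0 K hK hlt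
    have hG : ball z (min δ0 (1 / 10)) ⊆ {x : ℂ | x ∈ ball (0 : ℂ) 1 ∧ W x ≠ 0} := by
      intro x hx
      have hx1 : x ∈ ball (0 : ℂ) (9 / 10) := hsub _ (min_le_right _ _) hx
      refine ⟨ball_subset_ball (by norm_num) hx1, ?_⟩
      intro h0
      have h1 := hu x (ball_subset_closedBall hx1) z (ball_subset_closedBall hz1) ((mem_ball.1 hx).trans_le (min_le_left _ _))
      rw [h0, dist_eq_norm, zero_sub, norm_neg] at h1
      exact lt_asymm h1 hWz
    have hdW : DifferentiableOn ℂ W (ball z (min δ0 (1 / 10))) := h.dW.mono fun x hx => (hG hx).1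
    obtain ⟨hi1, hi2⟩ := hBJE W z s _ hs hsδ hdW hw.2
    have hGs : ∀ x ∈ ball z s, x ∈ ball (0 : ℂ) 1 ∧ W x ≠ 0 := fun x hx => hG (ball_subset_ball hsδ.le hx)
    have hΦi : IntegrableOn Φ (ball z s) := by
      have hd : IntegrableOn (fun x => L + A + 2 * |Real.log ‖W x‖|) (ball z s) :=
        (integrableOn_const measure_ball_lt_top.ne).add (hi1.abs.const_mul 2)
      refine Integrable.mono' hd ?_ ?_
      · refine h.me.aestronglyMeasurable.congr ?_
        filter_upwards [ae_restrict_mem measurableSet_ball] with x hx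
        exact indicator_of_mem (show x ∈ {x : ℂ | x ∈ ball (0 : ℂ) 1 ∧ W x ≠ 0} from hGs x hx) _
      · filter_upwards [ae_restrict_mem measurableSet_ball] with x hx
        have h1 := h.lo x
        have h2 := h.up x (hsub s hs1 hx) (hGs x hx).2
        have hL := h.L0
        have hA := h.A0
        have h4 := neg_abs_le (Real.log ‖W x‖)
        have h6 := abs_nonneg (Real.log ‖W x‖)
        rw [Real.norm_eq_abs, abs_of_nonneg (hL.trans h1)]
        rcases le_max_iff.1 h2 with h7 | h7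
        · linarith
        · linarith
    have h1 := h.mv z s _ hs hsδ hG hΦi
    have h2 : (⨍ x in ball z s, (Φ x + 4 * Real.log ‖W x‖)) = (⨍ x in ball z s, Φ x) + 4 * ⨍ x in ball z s, Real.log ‖W x‖ := by
      rw [BSB_avg_add hΦi (hi1.const_mul 4), BSB_avg_mul]
    rw [hS]
    calc Φ z + 4 * Real.log ‖W z‖ ≤ ⨍ x in ball z s, (Φ x + 4 * Real.log ‖W x‖) := by
          rw [h2]
          linarith
      _ ≤ ⨍ x in ball z s, BSB_phi W Φ K x := by
          refine BSB_avg_mono (hΦi.add (hi1.const_mul 4)) hint fun x hx => ?_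
          unfold BSB_phi
          rw [if_pos (hGs x hx)]
          exact le_max_left _ _
  · refine (not_lt.1 hlt).trans (BSB_avg_ge hs hint fun x _ => BSB_phi_ge x)

theorem BSB_fat (hFAT : FAT_stmt) (hBJE : BJE_stmt) {W : ℂ → ℂ} {Φ : ℂ → ℝ} {L A B : ℝ} (h : BSB_D W Φ L A B) {K : ℝ}
    (hK : 0 ≤ K) {e : ℝ} (he : 0 ≤ e) {χ : ℂ → ℝ} (hχ : ContDiff ℝ ∞ χ) (hc : HasCompactSupport χ)
    (hs : tsupport χ ⊆ ball 0 (4 / 5)) (h0 : ∀ z, 0 ≤ χ z) :
    ∫⁻ z, ENNReal.ofReal (χ z * e) ≤ ENNReal.ofReal (∫ z, lap χ z * (BSB_phi W Φ K z + e * Complex.normSq z)) := by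
  obtain ⟨δ, hδ, hδ1, hmv⟩ := BSB_mv hBJE h hK
  have hAVG : AVG_stmt := AVG
  have hsub : ∀ z ∈ ball (0 : ℂ) (4 / 5), ∀ s : ℝ, s < δ → ball z s ⊆ ball (0 : ℂ) (9 / 10) := by
    intro z hz s hs x hx
    have h1 : ‖x - z‖ < s := by simpa [dist_eq_norm] using hx
    have h2 : ‖z‖ < 4 / 5 := by simpa using hz
    simp only [mem_ball, dist_zero_right]
    calc ‖x‖ = ‖(x - z) + z‖ := by ring_nf
      _ ≤ ‖x - z‖ + ‖z‖ := norm_add_le _ _
      _ < 9 / 10 := by linarith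
  have hφm := BSB_phi_meas h K
  have hφi : ∀ z ∈ ball (0 : ℂ) (4 / 5), ∀ s : ℝ, s < δ → IntegrableOn (BSB_phi W Φ K) (ball z s) := by
    intro z hz s hs
    refine Measure.integrableOn_of_bounded (M := L + A + 4 * B + K) measure_ball_lt_top.ne
      hφm.aestronglyMeasurable ?_
    rw [ae_restrict_iff' measurableSet_ball]
    exact Eventually.of_forall (fun x hx => by rw [Real.norm_eq_abs]; exact BSB_phi_bdd h hK x (hsub z hz s hs hx))
  have hqi : ∀ z : ℂ, ∀ s : ℝ, IntegrableOn (fun x : ℂ => e * Complex.normSq x) (ball z s) := by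
    intro z s
    exact ((IG_normSq_smooth e).continuous.continuousOn.integrableOn_compact (isCompact_closedBall z s)).mono_set
      ball_subset_closedBall
  have hlap : ∀ x : ℂ, lap (fun x : ℂ => e * Complex.normSq x) x = e := IG_lap_normSq e
  refine hFAT (ball 0 (4 / 5)) (fun z => BSB_phi W Φ K z + e * Complex.normSq z) (fun _ => e) (L + A + 4 * B + K + e)
    isOpen_ball (hφm.add (IG_normSq_smooth e).continuous.measurable) measurable_const ?_ (fun _ _ => he) ?_ ?_ χ hχ hc hs h0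
  · intro z hz
    have h1 := BSB_phi_bdd h hK z (ball_subset_ball (by norm_num) hz)
    have h2 : ‖z‖ < 4 / 5 := by simpa using hz
    have h3 : Complex.normSq z ≤ 1 := by
      rw [Complex.normSq_eq_norm_sq]
      have h2 := norm_nonneg z
      nlinarith
    have h4 := Complex.normSq_nonneg z
    have h5 : |e * Complex.normSq z| ≤ e := by
      rw [abs_of_nonneg (by positivity)]
      nlinarith
    exact (abs_add_le _ _).trans (by linarith)
  · intro C _ hC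
    refine ⟨δ, hδ, ?_⟩
    intro z hz s hs0 hsδ
    have h1 := hmv z (hC hz) s hs0 hsδ
    have h2 := hAVG.1 (fun x : ℂ => e * Complex.normSq x) z δ (IG_normSq_smooth e).contDiffOn
      (fun x _ => by rw [hlap]; exact he) s hs0 hsδ
    rw [BSB_avg_add (hφi z (hC hz) s hsδ) (hqi z s)]
    linarith
  · intro z hz ε hε
    obtain ⟨s0, hs0, h1⟩ := hAVG.2.1 (fun x : ℂ => e * Complex.normSq x) z δ hδ (IG_normSq_smooth e).contDiffOn (ε / 2)
      (by positivity)
    refine ⟨min s0 δ, lt_min hs0 hδ, ?_⟩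
    intro s hs hss
    have h2 := h1 s hs (hss.trans_le (min_le_left _ _))
    have h3 := hmv z hz s hs (hss.trans_le (min_le_right _ _))
    rw [BSB_avg_add (hφi z hz s (hss.trans_le (min_le_right _ _))) (hqi z s)]
    rw [hlap, abs_le] at h2
    nlinarith [h2.1]

/-! ### Weak subharmonicity, abstract form -/

theorem BSB_weak (hFAT : FAT_stmt) (hBJE : BJE_stmt) {W : ℂ → ℂ} {Φ : ℂ → ℝ} {L A B : ℝ} (h : BSB_D W Φ L A B)
    (hint : IntegrableOn (fun x => Φ x + 4 * Real.log ‖W x‖) (ball 0 (4 / 5))) {χ : ℂ → ℝ} (hχ : ContDiff ℝ ∞ χ)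
    (hc : HasCompactSupport χ) (hs : tsupport χ ⊆ ball 0 (4 / 5)) (h0 : ∀ z, 0 ≤ χ z) :
    0 ≤ ∫ x, lap χ x * (Φ x + 4 * Real.log ‖W x‖) := by
  classical
  have hlc : Continuous (lap χ) := IG_lap_cont hχ
  have hlz : ∀ z, z ∉ ball (0 : ℂ) (4 / 5) → lap χ z = 0 := fun z hz => IG_lap_supp (fun h => hz (hs h))
  obtain ⟨C, hC⟩ : ∃ C : ℝ, ∀ z, ‖lap χ z‖ ≤ C := by
    obtain ⟨C, hC⟩ := (isCompact_closedBall (0 : ℂ) (4 / 5)).exists_bound_of_continuousOn hlc.continuousOn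
    refine ⟨max C 0, fun z => ?_⟩
    by_cases hz : z ∈ closedBall (0 : ℂ) (4 / 5)
    · exact (hC z hz).trans (le_max_left _ _)
    · rw [hlz z (fun h => hz (ball_subset_closedBall h)), norm_zero]
      exact le_max_right _ _
  have hmul : ∀ f : ℂ → ℝ, IntegrableOn f (ball 0 (4 / 5)) → Integrable (fun z => lap χ z * f z) := by
    intro f hf
    have h1 : IntegrableOn (fun z => lap χ z * f z) (ball 0 (4 / 5)) :=
      hf.bdd_mul hlc.aestronglyMeasurable (Eventually.of_forall hC)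
    refine (integrableOn_iff_integrable_of_support_subset ?_).1 h1
    intro z hz
    by_contra h
    exact hz (by simp only [hlz z h, zero_mul])
  have hphi : ∀ n : ℕ, IntegrableOn (BSB_phi W Φ n) (ball 0 (4 / 5)) := by
    intro n
    refine Measure.integrableOn_of_bounded (M := L + A + 4 * B + n) measure_ball_lt_top.ne
      (BSB_phi_meas h n).aestronglyMeasurable ?_
    rw [ae_restrict_iff' measurableSet_ball]
    exact Eventually.of_forall (fun z hz => by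
      rw [Real.norm_eq_abs]
      exact BSB_phi_bdd h (Nat.cast_nonneg n) z (ball_subset_ball (by norm_num) hz))
  have hnsq : IntegrableOn (fun z : ℂ => Complex.normSq z) (ball 0 (4 / 5)) :=
    (Complex.continuous_normSq.continuousOn.integrableOn_compact (isCompact_closedBall (0 : ℂ) (4 / 5))).mono_set
      ball_subset_closedBall
  have hJ : ∀ (n : ℕ) (e : ℝ), ∫ z, lap χ z * (BSB_phi W Φ n z + e * Complex.normSq z) =
      (∫ z, lap χ z * BSB_phi W Φ n z) + e * ∫ z, lap χ z * Complex.normSq z := by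
    intro n e
    rw [← integral_const_mul, ← integral_add (hmul _ (hphi n)) ((hmul _ hnsq).const_mul e)]
    refine integral_congr_ae (Eventually.of_forall fun z => ?_)
    simp only
    ring
  have hI0 : ∀ n : ℕ, 0 ≤ ∫ z, lap χ z * BSB_phi W Φ n z := by
    intro n
    by_cases hz : ∀ z, χ z = 0
    · have e1 : ∀ z, lap χ z = 0 := by
        intro z
        refine IG_lap_supp ?_
        have : χ = 0 := funext hz
        rw [this]
        simp
      simp [e1]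
    · push Not at hz
      obtain ⟨z0, hz0⟩ := hz
      have hpos : ∀ e : ℝ, 0 < e → 0 < (∫ z, lap χ z * BSB_phi W Φ n z) + e * ∫ z, lap χ z * Complex.normSq z := by
        intro e he
        have h1 := BSB_fat hFAT hBJE h (K := (n : ℝ)) (Nat.cast_nonneg n) he.le hχ hc hs h0
        rw [hJ] at h1
        have h2 : 0 < ∫⁻ z, ENNReal.ofReal (χ z * e) := by
          rw [lintegral_pos_iff_support]
          · have hop : IsOpen {z | 0 < χ z} := isOpen_lt continuous_const hχ.continuous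
            have hne' : ({z | 0 < χ z} : Set ℂ).Nonempty := ⟨z0, lt_of_le_of_ne (h0 z0) (Ne.symm hz0)⟩
            refine lt_of_lt_of_le (hop.measure_pos volume hne') (measure_mono ?_)
            intro z hz
            rw [Function.mem_support]
            have hz' : 0 < χ z := hz
            exact (ENNReal.ofReal_pos.2 (mul_pos hz' he)).ne'
          · exact (hχ.continuous.measurable.mul measurable_const).ennreal_ofReal
        exact ENNReal.ofReal_pos.1 (lt_of_lt_of_le h2 h1)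
      by_contra hneg
      push Not at hneg
      set I := ∫ z, lap χ z * BSB_phi W Φ n z
      set J := ∫ z, lap χ z * Complex.normSq z
      have h1 := hpos (-I / (|J| + 1)) (div_pos (by linarith) (by positivity))
      have h2 : -I / (|J| + 1) * J ≤ -I := by
        rw [div_mul_eq_mul_div, div_le_iff₀ (by positivity)]
        have h3 := le_abs_self J
        have h4 := abs_nonneg J
        nlinarith
      linarith
  have hGI : Integrable (fun z => lap χ z * (Φ z + 4 * Real.log ‖W z‖)) := hmul _ hint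
  have hlim : Tendsto (fun n : ℕ => ∫ z, lap χ z * BSB_phi W Φ n z) atTop
      (𝓝 (∫ z, lap χ z * (Φ z + 4 * Real.log ‖W z‖))) := by
    have hWae2 : ∀ᵐ z : ℂ, z ∈ ball (0 : ℂ) 1 → W z ≠ 0 := (ae_restrict_iff' measurableSet_ball).1 h.ae
    refine tendsto_integral_of_dominated_convergence (fun z => ‖lap χ z * (Φ z + 4 * Real.log ‖W z‖)‖) ?_ hGI.norm ?_ ?_
    · intro n
      exact (hmul _ (hphi n)).aestronglyMeasurable
    · intro n
      filter_upwards [hWae2] with z hz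
      by_cases hzR : z ∈ ball (0 : ℂ) (4 / 5)
      · have hz1 : z ∈ ball (0 : ℂ) 1 := ball_subset_ball (by norm_num) hzR
        rw [norm_mul, norm_mul]
        refine mul_le_mul_of_nonneg_left ?_ (norm_nonneg _)
        unfold BSB_phi
        rw [if_pos ⟨hz1, hz hz1⟩, Real.norm_eq_abs, Real.norm_eq_abs, abs_le]
        have hn : (0 : ℝ) ≤ n := Nat.cast_nonneg n
        constructor
        · exact (neg_abs_le _).trans (le_max_left _ _)
        · refine max_le (le_abs_self _) ?_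
          linarith [abs_nonneg (Φ z + 4 * Real.log ‖W z‖)]
      · rw [hlz z hzR]
        simp
    · filter_upwards [hWae2] with z hz
      by_cases hzR : z ∈ ball (0 : ℂ) (4 / 5)
      · have hz1 : z ∈ ball (0 : ℂ) 1 := ball_subset_ball (by norm_num) hzR
        refine tendsto_const_nhds.congr' ?_
        obtain ⟨N, hN⟩ := exists_nat_ge (-(Φ z + 4 * Real.log ‖W z‖))
        filter_upwards [eventually_ge_atTop N] with n hn
        unfold BSB_phi
        rw [if_pos ⟨hz1, hz hz1⟩, max_eq_left]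
        have : (N : ℝ) ≤ n := by exact_mod_cast hn
        linarith
      · simp only [hlz z hzR, zero_mul]
        exact tendsto_const_nhds
  exact ge_of_tendsto' hlim hI0

/-! ### The coefficients -/

/-- bound for the coefficients -/
noncomputable def BSB_M (P Q : ℂ × ℂ → ℂ) (E : ℝ) (x : ℂ) : ℝ :=
  (3 * (Real.exp (-(100 * E)) * (1 - ‖x‖) ^ 4 * ‖Wr (sl P 0) (sl Q 0) x‖ ^ 2) / 4)⁻¹

theorem BSB_M_one (hBI2 : BI2_stmt) {P Q : ℂ × ℂ → ℂ} {E : ℝ} (h : ND P Q E)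
    {x : ℂ} (hx : x ∈ ball (0 : ℂ) 1) (hw : Wr (sl P 0) (sl Q 0) x ≠ 0) :
    1 ≤ BSB_M P Q E x ∧ Real.log (BSB_M P Q E x) ≤
      1 + 100 * E - 4 * Real.log (1 - ‖x‖) - 2 * Real.log ‖Wr (sl P 0) (sl Q 0) x‖ := by
  obtain ⟨ρ, Y, hρe, hρ0, hρ1, -⟩ := hBI2 P Q E h x hx hw
  have hx1 : 0 < 1 - ‖x‖ := by
    have : ‖x‖ < 1 := by simpa using hx
    linarith
  have hw1 : 0 < ‖Wr (sl P 0) (sl Q 0) x‖ := norm_pos_iff.2 hw
  have hM : BSB_M P Q E x = (3 * ρ / 4)⁻¹ := by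
    unfold BSB_M
    rw [hρe]
  constructor
  · rw [hM]
    exact (one_le_inv₀ (by positivity)).2 (by linarith)
  · rw [hM, Real.log_inv]
    have e1 : 3 * ρ / 4 = (3 / 4) * ρ := by ring
    have h1 := Real.one_sub_inv_le_log_of_pos (show (0 : ℝ) < 3 / 4 by norm_num)
    rw [e1, Real.log_mul (by norm_num) hρ0.ne', hρe, Real.log_mul (by positivity) (by positivity),
      Real.log_mul (Real.exp_pos _).ne' (by positivity), Real.log_exp, Real.log_pow, Real.log_pow]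
    push_cast
    norm_num at h1
    linarith

theorem BSB_cf0 (hBCF : BCF_stmt) (hBI2 : BI2_stmt) (hBTC : BTC_stmt) {P Q : ℂ × ℂ → ℂ} {E : ℝ} (h : ND P Q E)
    {x : ℂ} (hx : x ∈ ball (0 : ℂ) 1) (hw : Wr (sl P 0) (sl Q 0) x ≠ 0) (hq : Q (x, 0) ≠ 0) (i j : ℕ) :
    ‖cf P Q i j x‖ ≤ BSB_M P Q E x ^ (i + j) := by
  obtain ⟨ρ, Y, hρe, hρ0, hρ1, hB⟩ := hBI2 P Q E h x hx hw
  obtain ⟨-, h2⟩ := hBTC P Q E h
  obtain ⟨Y', hY'⟩ := (h2 x hx (ball 0 1) ρ ρ Y subset_rfl hρ0 hρ1 hρ0 hρ1).1 hq hB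
  obtain ⟨-, h3, -⟩ := (hBCF P Q E h).2 x hx hq (3 * ρ / 4) ρ Y' (by positivity) hρ0 hρ1 hY'
  have hM : BSB_M P Q E x = (3 * ρ / 4)⁻¹ := by
    unfold BSB_M
    rw [hρe]
  rw [hM, pow_add]
  refine (h3 i j).trans (mul_le_mul_of_nonneg_left ?_ (by positivity))
  exact pow_le_pow_left₀ (by positivity) (inv_anti₀ (by positivity) (by linarith)) j

theorem BSB_cf (hBSL : BSL_stmt) (hBCF : BCF_stmt) (hBI2 : BI2_stmt) (hBTC : BTC_stmt) {P Q : ℂ × ℂ → ℂ} {E : ℝ}
    (h : ND P Q E) {x : ℂ} (hx : x ∈ ball (0 : ℂ) 1) (hw : Wr (sl P 0) (sl Q 0) x ≠ 0) (i j : ℕ) :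
    ‖cf P Q i j x‖ ≤ BSB_M P Q E x ^ (i + j) := by
  by_cases hq : Q (x, 0) ≠ 0
  · exact BSB_cf0 hBCF hBI2 hBTC h hx hw hq i j
  · push Not at hq
    obtain ⟨hAdm, -⟩ := hBSL P Q E h 0 (mem_ball_self one_pos)
    have hWd := IG_Wr_diff hAdm
    have hG := BSB_open hWd
    have hxG : x ∈ {z : ℂ | z ∈ ball (0 : ℂ) 1 ∧ Wr (sl P 0) (sl Q 0) z ≠ 0} := ⟨hx, hw⟩
    have hqd : HasDerivAt (sl Q 0) (deriv (sl Q 0) x) x :=
      ((hAdm.2.1 x hx).differentiableAt (isOpen_ball.mem_nhds hx)).hasDerivAt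
    have hne : deriv (sl Q 0) x ≠ 0 := by
      intro h0
      apply hw
      unfold Wr
      rw [h0, show sl Q 0 x = 0 from hq]
      ring
    have h1 : ∀ᶠ y in 𝓝[≠] x, sl Q 0 y ≠ 0 := hqd.eventually_ne hne
    have h2 : ∀ᶠ y in 𝓝[≠] x, y ∈ {z : ℂ | z ∈ ball (0 : ℂ) 1 ∧ Wr (sl P 0) (sl Q 0) z ≠ 0} :=
      (hG.mem_nhds hxG |> mem_nhdsWithin_of_mem_nhds)
    have h3 : Tendsto (fun y => ‖cf P Q i j y‖) (𝓝[≠] x) (𝓝 ‖cf P Q i j x‖) := by
      have h4 : ContinuousAt (cf P Q i j) x := (((hBCF P Q E h).1 i j).differentiableAt (hG.mem_nhds hxG)).continuousAt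
      exact h4.norm.tendsto.mono_left nhdsWithin_le_nhds
    have h5 : Tendsto (fun y => BSB_M P Q E y ^ (i + j)) (𝓝[≠] x) (𝓝 (BSB_M P Q E x ^ (i + j))) := by
      have h4 : ContinuousAt (Wr (sl P 0) (sl Q 0)) x := (hWd.differentiableAt (isOpen_ball.mem_nhds hx)).continuousAt
      have h6 : ContinuousAt (fun y => BSB_M P Q E y ^ (i + j)) x := by
        unfold BSB_M
        refine ContinuousAt.pow (ContinuousAt.inv₀ ?_ ?_) _
        · exact (((continuousAt_const.mul ((continuousAt_const.sub continuousAt_id.norm).pow 4)).mul (h4.norm.pow 2)).const_mul 3).div_const 4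
        · have hx1 : 0 < 1 - ‖x‖ := by
            have : ‖x‖ < 1 := by simpa using hx
            linarith
          have hw1 : 0 < ‖Wr (sl P 0) (sl Q 0) x‖ := norm_pos_iff.2 hw
          positivity
      exact h6.tendsto.mono_left nhdsWithin_le_nhds
    refine le_of_tendsto_of_tendsto h3 h5 ?_
    filter_upwards [h1, h2] with y hy1 hy2
    exact BSB_cf0 hBCF hBI2 hBTC h hy2.1 hy2.2 hy1 i j

theorem BSB_log {a M : ℝ} {i j : ℕ} (hij : 0 < (i : ℝ) + j) (ha : 0 ≤ a) (hM : 1 ≤ M) (h : a ≤ M ^ (i + j)) :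
    Real.log a / ((i : ℝ) + j) ≤ Real.log M := by
  rw [div_le_iff₀ hij]
  rcases ha.eq_or_lt with h0 | h0
  · rw [← h0, Real.log_zero]
    exact mul_nonneg (Real.log_nonneg hM) hij.le
  · have h1 := Real.log_le_log h0 h
    rw [Real.log_pow] at h1
    push_cast at h1
    linarith

theorem BSB_bound (hBSL : BSL_stmt) (hBCF : BCF_stmt) (hBI2 : BI2_stmt) (hBTC : BTC_stmt) {P Q : ℂ × ℂ → ℂ} {E κ r : ℝ}
    (h : ND P Q E) (hκ : 0 < κ) (hκ1 : κ ≤ 1) (hr : 0 < r) (hr1 : r ≤ 1) {x : ℂ} (hx : x ∈ ball (0 : ℂ) 1)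
    (hw : Wr (sl P 0) (sl Q 0) x ≠ 0) (n : {n : ℕ × ℕ // n ≠ 0}) :
    Real.log (‖cf P Q n.1.1 n.1.2 x‖ * κ ^ n.1.1 * r ^ n.1.2) / ((n.1.1 : ℝ) + n.1.2) ≤
      1 + 100 * E - 4 * Real.log (1 - ‖x‖) - 2 * Real.log ‖Wr (sl P 0) (sl Q 0) x‖ := by
  obtain ⟨h1, h2⟩ := BSB_M_one hBI2 h hx hw
  have h3 := BSB_cf hBSL hBCF hBI2 hBTC h hx hw n.1.1 n.1.2
  refine le_trans (BSB_log ?_ (by positivity) h1 ?_) h2
  · obtain ⟨⟨i, j⟩, hij⟩ := n
    have h4 : 0 < i + j := by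
      rcases Nat.eq_zero_or_pos (i + j) with h5 | h5
      · exfalso
        apply hij
        rw [Prod.mk_eq_zero]
        omega
      · exact h5
    exact_mod_cast h4
  · have h4 : κ ^ n.1.1 ≤ 1 := pow_le_one₀ hκ.le hκ1
    have h5 : r ^ n.1.2 ≤ 1 := pow_le_one₀ hr.le hr1
    have h6 := norm_nonneg (cf P Q n.1.1 n.1.2 x)
    calc ‖cf P Q n.1.1 n.1.2 x‖ * κ ^ n.1.1 * r ^ n.1.2 ≤ ‖cf P Q n.1.1 n.1.2 x‖ * 1 * 1 := by
          gcongr
      _ ≤ _ := by rw [mul_one, mul_one]; exact h3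

/-! ### The theorem -/

theorem BSB_volr : volume.real (ball (0 : ℂ) (4 / 5)) ≤ 3 := by
  rw [Measure.real, Complex.volume_ball]
  rw [ENNReal.toReal_mul, ENNReal.toReal_pow, ENNReal.toReal_ofReal (by norm_num)]
  have h1 := Real.pi_lt_four
  have h2 : ((NNReal.pi : ℝ≥0∞)).toReal = Real.pi := rfl
  rw [h2]
  nlinarith

theorem BSB (hFAT : FAT_stmt) (hLGW : LGW_stmt) (hBJE : BJE_stmt) (hBSL : BSL_stmt) (hBCF : BCF_stmt) (hBI2 : BI2_stmt) (hBTC : BTC_stmt) : BSB_stmt := by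
  obtain ⟨C0, hC0, hLG⟩ := hLGW
  refine ⟨3 * 138 + 4 * C0, by positivity, ?_⟩
  intro P Q E κ r L h hκ hκ1 hr hr1 hL hLE h4
  obtain ⟨hAdm, hUp, -, -⟩ := hBSL P Q E h 0 (mem_ball_self one_pos)
  have hE := h.hE
  obtain ⟨hWE, hWi, hWI⟩ := hLG (sl P 0) (sl Q 0) E hAdm hE hUp h4
  have hWd := IG_Wr_diff hAdm
  have hG := BSB_open hWd
  obtain ⟨hGm, hWm⟩ := BSB_Wm hWd
  -- `W` is not identically zero
  have hne : ∃ z ∈ ball (0 : ℂ) 1, Wr (sl P 0) (sl Q 0) z ≠ 0 := by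
    by_contra hcon
    push Not at hcon
    have h1 : ∫ x in ball (0 : ℂ) (1 / 2), sph (sl P 0) (sl Q 0) x = 0 := by
      refine setIntegral_eq_zero_of_forall_eq_zero fun x hx => ?_
      unfold sph
      rw [hcon x (ball_subset_ball (by norm_num) hx)]
      simp
    linarith
  have hWae := IG_Wr_ae hAdm hne
  have hbd := fun (x : ℂ) (hx : x ∈ ball (0 : ℂ) 1) (hw : Wr (sl P 0) (sl Q 0) x ≠ 0) (n : {n : ℕ × ℕ // n ≠ 0}) =>
    BSB_bound hBSL hBCF hBI2 hBTC h hκ hκ1 hr hr1 hx hw n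
  have hBA : ∀ x ∈ ball (0 : ℂ) 1, Wr (sl P 0) (sl Q 0) x ≠ 0 →
      BddAbove (range fun n : {n : ℕ × ℕ // n ≠ 0} => Real.log (‖cf P Q n.1.1 n.1.2 x‖ * κ ^ n.1.1 * r ^ n.1.2) / ((n.1.1 : ℝ) + n.1.2)) := by
    intro x hx hw
    refine ⟨1 + 100 * E - 4 * Real.log (1 - ‖x‖) - 2 * Real.log ‖Wr (sl P 0) (sl Q 0) x‖, ?_⟩
    rintro _ ⟨n, rfl⟩
    exact hbd x hx hw n
  have : Nonempty {n : ℕ × ℕ // n ≠ 0} := ⟨⟨(1, 0), by simp⟩⟩
  set c : {n : ℕ × ℕ // n ≠ 0} → ℂ → ℂ := fun n x => cf P Q n.1.1 n.1.2 x * (κ : ℂ) ^ n.1.1 * (r : ℂ) ^ n.1.2 with hc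
  have hcn : ∀ n x, ‖c n x‖ = ‖cf P Q n.1.1 n.1.2 x‖ * κ ^ n.1.1 * r ^ n.1.2 := by
    intro n x
    rw [hc]
    simp only [norm_mul, norm_pow, Complex.norm_real, Real.norm_eq_abs, abs_of_pos hκ, abs_of_pos hr]
  have hPh : ∀ x, Ph P Q κ r L x = max L (⨆ n, Real.log ‖c n x‖ / ((n.1.1 : ℝ) + n.1.2)) := by
    intro x
    unfold Ph
    simp only [hcn]
  have hcd : ∀ n, DifferentiableOn ℂ (c n) {x : ℂ | x ∈ ball (0 : ℂ) 1 ∧ Wr (sl P 0) (sl Q 0) x ≠ 0} := by
    intro n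
    exact (((hBCF P Q E h).1 n.1.1 n.1.2).mul_const _).mul_const _
  have hme : Measurable (fun x => ({x : ℂ | x ∈ ball (0 : ℂ) 1 ∧ Wr (sl P 0) (sl Q 0) x ≠ 0}).indicator (Ph P Q κ r L) x) := by
    classical
    have hcm : ∀ n, Measurable (({x : ℂ | x ∈ ball (0 : ℂ) 1 ∧ Wr (sl P 0) (sl Q 0) x ≠ 0}).indicator (c n)) := by
      intro n
      have h1 := (hcd n).continuousOn.measurable_piecewise (g := fun _ => (0 : ℂ)) continuousOn_const hGm
      have e : ({x : ℂ | x ∈ ball (0 : ℂ) 1 ∧ Wr (sl P 0) (sl Q 0) x ≠ 0}).piecewise (c n) (fun _ => (0 : ℂ)) =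
          ({x : ℂ | x ∈ ball (0 : ℂ) 1 ∧ Wr (sl P 0) (sl Q 0) x ≠ 0}).indicator (c n) := by
        funext z
        by_cases hz : z ∈ {x : ℂ | x ∈ ball (0 : ℂ) 1 ∧ Wr (sl P 0) (sl Q 0) x ≠ 0}
        · rw [piecewise_eq_of_mem _ _ _ hz, indicator_of_mem hz]
        · rw [piecewise_eq_of_notMem _ _ _ hz, indicator_of_notMem hz]
      rw [← e]
      exact h1
    have e : ({x : ℂ | x ∈ ball (0 : ℂ) 1 ∧ Wr (sl P 0) (sl Q 0) x ≠ 0}).indicator (Ph P Q κ r L) =
        ({x : ℂ | x ∈ ball (0 : ℂ) 1 ∧ Wr (sl P 0) (sl Q 0) x ≠ 0}).indicator (fun x => max L (⨆ n, Real.log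
          ‖({x : ℂ | x ∈ ball (0 : ℂ) 1 ∧ Wr (sl P 0) (sl Q 0) x ≠ 0}).indicator (c n) x‖ / ((n.1.1 : ℝ) + n.1.2))) := by
      funext z
      by_cases hz : z ∈ {x : ℂ | x ∈ ball (0 : ℂ) 1 ∧ Wr (sl P 0) (sl Q 0) x ≠ 0}
      · rw [indicator_of_mem hz, indicator_of_mem hz, hPh]
        simp only [indicator_of_mem hz]
      · rw [indicator_of_notMem hz, indicator_of_notMem hz]
    show Measurable (({x : ℂ | x ∈ ball (0 : ℂ) 1 ∧ Wr (sl P 0) (sl Q 0) x ≠ 0}).indicator (Ph P Q κ r L))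
    rw [e]
    refine Measurable.indicator (measurable_const.max (Measurable.iSup fun n => ?_)) hGm
    exact (Real.measurable_log.comp (hcm n).norm).div_const _
  have hD : BSB_D (Wr (sl P 0) (sl Q 0)) (Ph P Q κ r L) L (100 * E + 37) (6 * E) := by
    refine ⟨hWd, hWae, hme, hL, by linarith, by linarith, ?_, ?_, ?_, ?_⟩
    · intro z
      exact le_max_left _ _
    · intro z hz hw
      have hz1 : z ∈ ball (0 : ℂ) 1 := ball_subset_ball (by norm_num) hz
      refine max_le_max le_rfl (ciSup_le fun n => (hbd z hz1 hw n).trans ?_)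
      have h1 : ‖z‖ < 9 / 10 := by simpa using hz
      have h2 := Real.log_le_log (show (0 : ℝ) < 1 / 10 by norm_num) (show 1 / 10 ≤ 1 - ‖z‖ by linarith)
      have h3 := Real.one_sub_inv_le_log_of_pos (show (0 : ℝ) < 1 / 10 by norm_num)
      norm_num at h3
      norm_num at h2
      linarith
    · intro z hz
      have h1 := hWE z (ball_subset_ball (by norm_num) hz)
      by_cases hw : Wr (sl P 0) (sl Q 0) z = 0
      · rw [hw, norm_zero, Real.log_zero]
        linarith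
      · rw [Real.log_le_iff_le_exp (norm_pos_iff.2 hw)]
        exact h1
    · intro z s δ hs hsδ hsub hint
      have e : Ph P Q κ r L = fun x => max L (⨆ n, Real.log ‖c n x‖ / ((n.1.1 : ℝ) + n.1.2)) := funext hPh
      rw [e] at hint ⊢
      refine BSB_sup hBJE (c := c) (m := fun n => (n.1.1 : ℝ) + n.1.2) ?_ hL hs hsδ ?_ ?_ hint
      · rintro ⟨⟨i, j⟩, hij⟩
        have h4 : 0 < i + j := by
          rcases Nat.eq_zero_or_pos (i + j) with h5 | h5
          · exfalso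
            apply hij
            rw [Prod.mk_eq_zero]
            omega
          · exact h5
        exact_mod_cast h4
      · intro n
        exact (hcd n).mono hsub
      · intro x hx
        have h1 := hsub (ball_subset_ball hsδ.le hx)
        have h2 := hBA x h1.1 h1.2
        simp only [hcn]
        exact h2
  have hdom : IntegrableOn (fun z => L + (100 * E + 37) + 4 * |Real.log ‖Wr (sl P 0) (sl Q 0) z‖|) (ball 0 (4 / 5)) :=
    (integrableOn_const measure_ball_lt_top.ne).add (hWi.abs.const_mul 4)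
  have hWae' : ∀ᵐ z ∂(volume.restrict (ball (0 : ℂ) (4 / 5))), Wr (sl P 0) (sl Q 0) z ≠ 0 :=
    ae_restrict_of_ae_restrict_of_subset (ball_subset_ball (by norm_num)) hWae
  have hle : ∀ᵐ z ∂(volume.restrict (ball (0 : ℂ) (4 / 5))), |Ph P Q κ r L z + 4 * Real.log ‖Wr (sl P 0) (sl Q 0) z‖| ≤
      L + (100 * E + 37) + 4 * |Real.log ‖Wr (sl P 0) (sl Q 0) z‖| := by
    filter_upwards [hWae', ae_restrict_mem measurableSet_ball] with z hw hz
    exact (BSB_upper hD (ball_subset_ball (by norm_num) hz) hw).1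
  have hint : IntegrableOn (fun x => Ph P Q κ r L x + 4 * Real.log ‖Wr (sl P 0) (sl Q 0) x‖) (ball 0 (4 / 5)) := by
    refine Integrable.mono' hdom ?_ ?_
    · have h1 : AEStronglyMeasurable (fun x => ({x : ℂ | x ∈ ball (0 : ℂ) 1 ∧ Wr (sl P 0) (sl Q 0) x ≠ 0}).indicator (Ph P Q κ r L) x +
          4 * Real.log ‖Wr (sl P 0) (sl Q 0) x‖) (volume.restrict (ball (0 : ℂ) (4 / 5))) :=
        hme.aestronglyMeasurable.add (hWi.aestronglyMeasurable.const_mul 4)
      refine h1.congr ?_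
      filter_upwards [hWae', ae_restrict_mem measurableSet_ball] with z hw hz
      rw [indicator_of_mem (show z ∈ {x : ℂ | x ∈ ball (0 : ℂ) 1 ∧ Wr (sl P 0) (sl Q 0) x ≠ 0} from
        ⟨ball_subset_ball (by norm_num) hz, hw⟩)]
    · filter_upwards [hle] with z hz
      rw [Real.norm_eq_abs]
      exact hz
  refine ⟨hBA, hme, hint, ?_, ?_⟩
  · calc ∫ x in ball (0 : ℂ) (4 / 5), |Ph P Q κ r L x + 4 * Real.log ‖Wr (sl P 0) (sl Q 0) x‖|
        ≤ ∫ x in ball (0 : ℂ) (4 / 5), (L + (100 * E + 37) + 4 * |Real.log ‖Wr (sl P 0) (sl Q 0) x‖|) :=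
          integral_mono_ae hint.abs hdom hle
      _ = volume.real (ball (0 : ℂ) (4 / 5)) * (L + (100 * E + 37)) +
          4 * ∫ x in ball (0 : ℂ) (4 / 5), |Real.log ‖Wr (sl P 0) (sl Q 0) x‖| := by
          have i1 : IntegrableOn (fun _ : ℂ => L + (100 * E + 37)) (ball 0 (4 / 5)) := integrableOn_const measure_ball_lt_top.ne
          rw [integral_add i1 (hWi.abs.const_mul 4), setIntegral_const, integral_const_mul, smul_eq_mul]
      _ ≤ 3 * (138 * E) + 4 * (C0 * E) := by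
          have h1 := BSB_volr
          have h2 : L + (100 * E + 37) ≤ 138 * E := by linarith
          have h3 : 0 ≤ L + (100 * E + 37) := by linarith
          have h5 : volume.real (ball (0 : ℂ) (4 / 5)) * (L + (100 * E + 37)) ≤ 3 * (138 * E) :=
            mul_le_mul h1 h2 h3 (by norm_num)
          linarith
      _ = (3 * 138 + 4 * C0) * E := by ring
  · intro χ hχ hcs hs h0
    exact BSB_weak hFAT hBJE hD hint hχ hcs hs h0

end Pool.Agent.P2B
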