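import Pool.Agent.helper15.P2.SpecB
import Pool.Agent.helper49.P2.OSG

set_option autoImplicit false

/-!
# MP_063734_an, row p2:BUQ: structure of bands
-/

open scoped ContDiff Topology ComplexConjugate ENNReal
open MeasureTheory Filter Set Metric

namespace Pool.Agent.P2B

open Pool.Agent.P2 Pool.Agent.P2I

/-- local uniqueness of an implicit function -/
theorem BUQ_uni (F : ℂ × ℂ → ℂ) (U : Set (ℂ × ℂ)) (hU : IsOpen U) (hF : DifferentiableOn ℂ F U)
    (x0 : ℂ) (hx : (x0, (0 : ℂ)) ∈ U) (hd : fderiv ℂ F (x0, 0) (1, 0) ≠ 0) (φ ψ : ℂ → ℂ)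
    (hφ : ContinuousAt φ 0) (hψ : ContinuousAt ψ 0) (hφ0 : φ 0 = x0) (hψ0 : ψ 0 = x0)
    (h : ∀ᶠ s in 𝓝 (0 : ℂ), F (φ s, s) = 0 ∧ F (ψ s, s) = 0) : φ =ᶠ[𝓝 0] ψ := by
  have hstr : HasStrictFDerivAt F (fderiv ℂ F (x0, 0)) (x0, 0) := by
    refine hasStrictFDerivAt_of_hasFDerivAt_of_continuousAt ?_ ?_
    · filter_upwards [hU.mem_nhds hx] with y hy
      exact (hF.differentiableAt (hU.mem_nhds hy)).hasFDerivAt
    · exact (OSG_cont hU hF).continuousAt (hU.mem_nhds hx)
  have hc : 0 < ‖fderiv ℂ F (x0, 0) (1, 0)‖ / 2 := by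
    have := norm_pos_iff.mpr hd
    positivity
  have h1 := hstr.isLittleO.def hc
  have ht : Tendsto (fun s : ℂ => ((φ s, s), (ψ s, s))) (𝓝 0)
      (𝓝 (((x0, 0) : ℂ × ℂ), ((x0, 0) : ℂ × ℂ))) := by
    have e1 : Tendsto φ (𝓝 0) (𝓝 x0) := by
      have := hφ.tendsto
      rwa [hφ0] at this
    have e2 : Tendsto ψ (𝓝 0) (𝓝 x0) := by
      have := hψ.tendsto
      rwa [hψ0] at this
    exact (e1.prodMk_nhds tendsto_id).prodMk_nhds (e2.prodMk_nhds tendsto_id)
  filter_upwards [ht.eventually h1, h] with s hs1 hs2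
  rw [hs2.1, hs2.2] at hs1
  have e1 : ((φ s, s) : ℂ × ℂ) - (ψ s, s) = (φ s - ψ s) • ((1 : ℂ), (0 : ℂ)) := by
    ext <;> simp
  rw [e1, map_smul, norm_smul, sub_zero, zero_sub, norm_neg, norm_smul] at hs1
  have e2 : ‖((1 : ℂ), (0 : ℂ))‖ = 1 := by simp [Prod.norm_def]
  rw [e2, mul_one] at hs1
  have e3 : ‖φ s - ψ s‖ = 0 := by
    by_contra hne
    have hpos : 0 < ‖φ s - ψ s‖ := lt_of_le_of_ne (norm_nonneg _) (Ne.symm hne)
    nlinarith
  exact sub_eq_zero.mp (norm_eq_zero.mp e3)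

/-- a point of the sphere with coordinate `t` around `(a : b)` -/
theorem BUQ_mu (a b t f0 g0 : ℂ) (hab : a ≠ 0 ∨ b ≠ 0) (hne : f0 ≠ 0 ∨ g0 ≠ 0)
    (h : f0 * (b + t * conj a) = g0 * (a - t * conj b)) :
    ∃ μ : ℂ, μ ≠ 0 ∧ f0 = μ * (a - t * conj b) ∧ g0 = μ * (b + t * conj a) := by
  have hn : 0 < Complex.normSq a + Complex.normSq b := by
    rcases hab with h | h
    · have := Complex.normSq_pos.mpr h
      have := Complex.normSq_nonneg b
      linarith
    · have := Complex.normSq_pos.mpr h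
      have := Complex.normSq_nonneg a
      linarith
  have hN : Complex.normSq (a - t * conj b) + Complex.normSq (b + t * conj a) =
      (1 + Complex.normSq t) * (Complex.normSq a + Complex.normSq b) := by
    simp only [Complex.normSq_apply, Complex.sub_re, Complex.sub_im, Complex.add_re, Complex.add_im,
      Complex.mul_re, Complex.mul_im, Complex.conj_re, Complex.conj_im]
    ring
  have hN0 : 0 < Complex.normSq (a - t * conj b) + Complex.normSq (b + t * conj a) := by
    rw [hN]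
    have := Complex.normSq_nonneg t
    positivity
  have hNC : (a - t * conj b) * conj (a - t * conj b) + (b + t * conj a) * conj (b + t * conj a) =
      ((Complex.normSq (a - t * conj b) + Complex.normSq (b + t * conj a) : ℝ) : ℂ) := by
    rw [Complex.mul_conj, Complex.mul_conj]
    push_cast
    ring
  have hNC0 : ((Complex.normSq (a - t * conj b) + Complex.normSq (b + t * conj a) : ℝ) : ℂ) ≠ 0 := by
    exact_mod_cast hN0.ne'
  obtain ⟨α, hα⟩ : ∃ α, α = a - t * conj b := ⟨_, rfl⟩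
  obtain ⟨β, hβ⟩ : ∃ β, β = b + t * conj a := ⟨_, rfl⟩
  rw [← hα, ← hβ] at h hNC hNC0 ⊢
  rw [← hNC] at hNC0
  have e1 : f0 = (f0 * conj α + g0 * conj β) / (α * conj α + β * conj β) * α := by
    rw [div_mul_eq_mul_div, eq_div_iff hNC0]
    linear_combination (conj β) * h
  have e2 : g0 = (f0 * conj α + g0 * conj β) / (α * conj α + β * conj β) * β := by
    rw [div_mul_eq_mul_div, eq_div_iff hNC0]
    linear_combination (-(conj α)) * h
  refine ⟨(f0 * conj α + g0 * conj β) / (α * conj α + β * conj β), ?_, e1, e2⟩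
  intro h0
  rw [h0, zero_mul] at e1 e2
  rcases hne with h | h
  · exact h e1
  · exact h e2

/-- the algebra of one slice -/
theorem BUQ_core (f g y : ℂ → ℂ) (a b : ℂ) (κ : ℝ) (t : ℂ) (ht : t ∈ ball (0 : ℂ) κ)
    (hab : a ≠ 0 ∨ b ≠ 0) (hy : DifferentiableAt ℂ y t) (hf : DifferentiableAt ℂ f (y t))
    (hg : DifferentiableAt ℂ g (y t)) (hne : f (y t) ≠ 0 ∨ g (y t) ≠ 0)
    (heq : ∀ s ∈ ball (0 : ℂ) κ, f (y s) * (b + s * conj a) = g (y s) * (a - s * conj b)) :
    Wr f g (y t) ≠ 0 ∧ f (y t) * conj a + g (y t) * conj b ≠ 0 ∧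
      Complex.normSq (deriv y t) * sph f g (y t) * (1 + Complex.normSq t) ^ 2 = 1 := by
  have hn : 0 < Complex.normSq a + Complex.normSq b := by
    rcases hab with h | h
    · have := Complex.normSq_pos.mpr h
      have := Complex.normSq_nonneg b
      linarith
    · have := Complex.normSq_pos.mpr h
      have := Complex.normSq_nonneg a
      linarith
  have hnC : a * conj a + b * conj b = ((Complex.normSq a + Complex.normSq b : ℝ) : ℂ) := by
    rw [Complex.mul_conj, Complex.mul_conj]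
    push_cast
    ring
  have hnC0 : ((Complex.normSq a + Complex.normSq b : ℝ) : ℂ) ≠ 0 := by exact_mod_cast hn.ne'
  obtain ⟨μ, hμ0, hf0, hg0⟩ := BUQ_mu a b t (f (y t)) (g (y t)) hab hne (heq t ht)
  -- the derivative
  have d1 : HasDerivAt (fun s => f (y s) * (b + s * conj a))
      (deriv f (y t) * deriv y t * (b + t * conj a) + f (y t) * conj a) t := by
    have e1 : HasDerivAt (fun s => f (y s)) (deriv f (y t) * deriv y t) t :=
      hf.hasDerivAt.comp t hy.hasDerivAt
    have e2 : HasDerivAt (fun s : ℂ => b + s * conj a) (conj a) t := by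
      have := ((hasDerivAt_id t).mul_const (conj a)).const_add b
      simpa using this
    exact e1.mul e2
  have d2 : HasDerivAt (fun s => g (y s) * (a - s * conj b))
      (deriv g (y t) * deriv y t * (a - t * conj b) + g (y t) * (-(conj b))) t := by
    have e1 : HasDerivAt (fun s => g (y s)) (deriv g (y t) * deriv y t) t :=
      hg.hasDerivAt.comp t hy.hasDerivAt
    have e2 : HasDerivAt (fun s : ℂ => a - s * conj b) (-(conj b)) t := by
      have := ((hasDerivAt_id t).mul_const (conj b)).const_sub a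
      simpa using this
    exact e1.mul e2
  have d3 : (fun s => f (y s) * (b + s * conj a)) =ᶠ[𝓝 t] fun s => g (y s) * (a - s * conj b) := by
    filter_upwards [isOpen_ball.mem_nhds ht] with s hs
    exact heq s hs
  have d4 := (d1.congr_of_eventuallyEq d3.symm).unique d2
  have hbr : f (y t) * conj a + g (y t) * conj b =
      μ * ((Complex.normSq a + Complex.normSq b : ℝ) : ℂ) := by
    rw [← hnC, hf0, hg0]
    ring
  have hW : deriv y t * Wr f g (y t) = -(μ ^ 2 * ((Complex.normSq a + Complex.normSq b : ℝ) : ℂ)) := by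
    have e1 : deriv y t * (deriv f (y t) * (b + t * conj a) - deriv g (y t) * (a - t * conj b)) =
        -(f (y t) * conj a + g (y t) * conj b) := by
      linear_combination d4
    rw [hbr] at e1
    unfold Wr
    rw [hf0, hg0]
    linear_combination μ * e1
  have hne2 : -(μ ^ 2 * ((Complex.normSq a + Complex.normSq b : ℝ) : ℂ)) ≠ 0 :=
    neg_ne_zero.mpr (mul_ne_zero (pow_ne_zero 2 hμ0) hnC0)
  refine ⟨?_, ?_, ?_⟩
  · intro h0
    rw [h0, mul_zero] at hW
    exact hne2 hW.symm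
  · rw [hbr]
    exact mul_ne_zero hμ0 hnC0
  · have hN : Complex.normSq (a - t * conj b) + Complex.normSq (b + t * conj a) =
        (1 + Complex.normSq t) * (Complex.normSq a + Complex.normSq b) := by
      simp only [Complex.normSq_apply, Complex.sub_re, Complex.sub_im, Complex.add_re,
        Complex.add_im, Complex.mul_re, Complex.mul_im, Complex.conj_re, Complex.conj_im]
      ring
    have e1 : Complex.normSq (f (y t)) + Complex.normSq (g (y t)) =
        Complex.normSq μ * ((1 + Complex.normSq t) * (Complex.normSq a + Complex.normSq b)) := by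
      rw [← hN]
      conv_lhs => rw [hf0, hg0]
      rw [Complex.normSq_mul, Complex.normSq_mul]
      ring
    have e2 : Complex.normSq (deriv y t) * Complex.normSq (Wr f g (y t)) =
        Complex.normSq μ ^ 2 * (Complex.normSq a + Complex.normSq b) ^ 2 := by
      rw [← Complex.normSq_mul, hW, Complex.normSq_neg, Complex.normSq_mul, map_pow,
        Complex.normSq_ofReal]
      ring
    have hμ : 0 < Complex.normSq μ := Complex.normSq_pos.mpr hμ0
    have ht0 : 0 ≤ Complex.normSq t := Complex.normSq_nonneg t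
    unfold sph
    rw [e1]
    calc Complex.normSq (deriv y t) * (Complex.normSq (Wr f g (y t)) /
          (Complex.normSq μ * ((1 + Complex.normSq t) * (Complex.normSq a + Complex.normSq b))) ^ 2) *
          (1 + Complex.normSq t) ^ 2
        = (Complex.normSq (deriv y t) * Complex.normSq (Wr f g (y t))) /
          (Complex.normSq μ * ((1 + Complex.normSq t) * (Complex.normSq a + Complex.normSq b))) ^ 2 *
          (1 + Complex.normSq t) ^ 2 := by ring
      _ = 1 := by
        rw [e2]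
        field_simp

/-- **BUQ** -/
theorem BUQ (hBRA : BRA_stmt) (hBSL : BSL_stmt) : BUQ_stmt := by
  intro P Q E hND x0 hx0 κ r Y hκ hr hr1 hY
  have _ := hBRA
  have _ := hBSL
  have hopen : IsOpen BI := isOpen_ball.prod isOpen_ball
  have h0b : (0 : ℂ) ∈ ball (0 : ℂ) 1 := mem_ball_self one_pos
  have hab : P (x0, 0) ≠ 0 ∨ Q (x0, 0) ≠ 0 := hND.ne (x0, 0) ⟨hx0, h0b⟩
  -- slices are differentiable
  have hslP : ∀ v ∈ ball (0 : ℂ) 1, ∀ x ∈ ball (0 : ℂ) 1, DifferentiableAt ℂ (sl P v) x := by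
    intro v hv x hx
    have h1 : DifferentiableAt ℂ P (x, v) := hND.dP.differentiableAt (hopen.mem_nhds ⟨hx, hv⟩)
    exact h1.comp x (differentiableAt_id.prodMk (differentiableAt_const v))
  have hslQ : ∀ v ∈ ball (0 : ℂ) 1, ∀ x ∈ ball (0 : ℂ) 1, DifferentiableAt ℂ (sl Q v) x := by
    intro v hv x hx
    have h1 : DifferentiableAt ℂ Q (x, v) := hND.dQ.differentiableAt (hopen.mem_nhds ⟨hx, hv⟩)
    exact h1.comp x (differentiableAt_id.prodMk (differentiableAt_const v))
  have hYd : ∀ (κ r : ℝ) (Y : ℂ × ℂ → ℂ), Band P Q (ball 0 1) κ r x0 Y → ∀ t ∈ ball (0 : ℂ) κ,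
      ∀ v ∈ ball (0 : ℂ) r, DifferentiableAt ℂ (fun t => Y (t, v)) t := by
    intro κ r Y hY t ht v hv
    have h1 : DifferentiableAt ℂ Y (t, v) :=
      hY.1.differentiableAt ((isOpen_ball.prod isOpen_ball).mem_nhds ⟨ht, hv⟩)
    exact h1.comp t (differentiableAt_id.prodMk (differentiableAt_const v))
  have hsub : ball (0 : ℂ) r ⊆ ball (0 : ℂ) 1 := ball_subset_ball hr1
  -- part 1
  have p1 : ∀ t ∈ ball (0 : ℂ) κ, ∀ v ∈ ball (0 : ℂ) r, Wr (sl P v) (sl Q v) (Y (t, v)) ≠ 0 ∧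
      P (Y (t, v), v) * conj (P (x0, 0)) + Q (Y (t, v), v) * conj (Q (x0, 0)) ≠ 0 ∧
      Complex.normSq (deriv (fun t => Y (t, v)) t) * sph (sl P v) (sl Q v) (Y (t, v)) *
        (1 + Complex.normSq t) ^ 2 = 1 := by
    intro t ht v hv
    have hv1 := hsub hv
    have hYt := hY.2.2 t ht v hv
    exact BUQ_core (sl P v) (sl Q v) (fun t => Y (t, v)) (P (x0, 0)) (Q (x0, 0)) κ t ht hab
      (hYd κ r Y hY t ht v hv) (hslP v hv1 _ hYt.1) (hslQ v hv1 _ hYt.1)
      (hND.ne (Y (t, v), v) ⟨hYt.1, hv1⟩) (fun s hs => (hY.2.2 s hs v hv).2)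
  have h0κ : (0 : ℂ) ∈ ball (0 : ℂ) κ := mem_ball_self hκ
  have h0r : (0 : ℂ) ∈ ball (0 : ℂ) r := mem_ball_self hr
  refine ⟨p1, ?_, ?_⟩
  · intro v hv
    have hv1 := hsub hv
    constructor
    · intro t ht t' ht' h
      have h' : Y (t, v) = Y (t', v) := h
      have e1 := (hY.2.2 t ht v hv).2
      have e2 := (hY.2.2 t' ht' v hv).2
      have e3 := (p1 t ht v hv).2.1
      rw [← h'] at e2
      have e4 : (t - t') * (P (Y (t, v), v) * conj (P (x0, 0)) + Q (Y (t, v), v) * conj (Q (x0, 0))) = 0 := by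
        linear_combination e1 - e2
      rcases mul_eq_zero.mp e4 with h5 | h5
      · exact sub_eq_zero.mp h5
      · exact absurd h5 e3
    · have hY0 := hY.2.2 0 h0κ v hv
      obtain ⟨μ, hμ0, hP0, hQ0⟩ := BUQ_mu (P (x0, 0)) (Q (x0, 0)) 0 (P (Y (0, v), v)) (Q (Y (0, v), v))
        hab (hND.ne (Y (0, v), v) ⟨hY0.1, hv1⟩) hY0.2
      rw [zero_mul, sub_zero] at hP0
      rw [zero_mul, add_zero] at hQ0
      have hl : ‖conj μ / μ‖ = 1 := by
        rw [norm_div, Complex.norm_conj, div_self (norm_ne_zero_iff.mpr hμ0)]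
      refine ⟨conj μ / μ, hl, ?_, ?_, ?_⟩
      · intro t ht
        have hlt : conj μ / μ * t ∈ ball (0 : ℂ) κ := by
          rw [mem_ball_zero_iff] at ht ⊢
          rw [norm_mul, hl, one_mul]
          exact ht
        have h1 : DifferentiableAt ℂ (fun s => Y (s, v)) (conj μ / μ * t) := hYd κ r Y hY _ hlt v hv
        exact (h1.comp t (differentiableAt_id.const_mul (conj μ / μ))).differentiableWithinAt
      · show Y (conj μ / μ * 0, v) = Y (0, v)
        rw [mul_zero]
      · intro t ht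
        have hlt : conj μ / μ * t ∈ ball (0 : ℂ) κ := by
          rw [mem_ball_zero_iff] at ht ⊢
          rw [norm_mul, hl, one_mul]
          exact ht
        obtain ⟨h1, h2⟩ := hY.2.2 _ hlt v hv
        refine ⟨h1, ?_⟩
        show P (Y (conj μ / μ * t, v), v) * (Q (Y (0, v), v) + t * conj (P (Y (0, v), v))) =
          Q (Y (conj μ / μ * t, v), v) * (P (Y (0, v), v) - t * conj (Q (Y (0, v), v)))
        rw [hP0, hQ0, map_mul, map_mul]
        have e1 : μ * (conj μ / μ) = conj μ := by field_simp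
        linear_combination μ * h2 - P (Y (conj μ / μ * t, v), v) * t * conj (P (x0, 0)) * e1 -
          Q (Y (conj μ / μ * t, v), v) * t * conj (Q (x0, 0)) * e1
  · intro κ' r' Y' hr'1 hY' t ht v hv ht' hv'
    have hκ' : 0 < κ' := lt_of_le_of_lt (norm_nonneg _) (mem_ball_zero_iff.mp ht')
    have hr' : 0 < r' := lt_of_le_of_lt (norm_nonneg _) (mem_ball_zero_iff.mp hv')
    have hv1 := hsub hv
    -- a larger disc
    obtain ⟨ρ, hρ1, hρ2⟩ : ∃ ρ : ℝ, 1 < ρ ∧ (ρ * ‖t‖ < κ ∧ ρ * ‖t‖ < κ' ∧ ρ * ‖v‖ < r ∧ ρ * ‖v‖ < r') := by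
      have c1 : Tendsto (fun ρ : ℝ => ρ * ‖t‖) (𝓝 1) (𝓝 ‖t‖) := by
        have : Continuous (fun ρ : ℝ => ρ * ‖t‖) := continuous_id.mul continuous_const
        have h := this.tendsto 1
        simpa using h
      have c2 : Tendsto (fun ρ : ℝ => ρ * ‖v‖) (𝓝 1) (𝓝 ‖v‖) := by
        have : Continuous (fun ρ : ℝ => ρ * ‖v‖) := continuous_id.mul continuous_const
        have h := this.tendsto 1
        simpa using h
      have hev : ∀ᶠ ρ in 𝓝 (1 : ℝ), (ρ * ‖t‖ < κ ∧ ρ * ‖t‖ < κ' ∧ ρ * ‖v‖ < r ∧ ρ * ‖v‖ < r') :=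
        (c1.eventually_lt_const (mem_ball_zero_iff.mp ht)).and
          ((c1.eventually_lt_const (mem_ball_zero_iff.mp ht')).and
            ((c2.eventually_lt_const (mem_ball_zero_iff.mp hv)).and
              (c2.eventually_lt_const (mem_ball_zero_iff.mp hv'))))
      have hev2 : ∀ᶠ ρ in 𝓝[>] (1 : ℝ), 1 < ρ ∧ (ρ * ‖t‖ < κ ∧ ρ * ‖t‖ < κ' ∧ ρ * ‖v‖ < r ∧ ρ * ‖v‖ < r') :=
        (eventually_mem_nhdsWithin).and (hev.filter_mono nhdsWithin_le_nhds)
      exact hev2.exists
    obtain ⟨ρ1, ρ2, ρ3, ρ4⟩ := hρ2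
    have hmem : ∀ s ∈ ball (0 : ℂ) ρ, s * t ∈ ball (0 : ℂ) κ ∧ s * t ∈ ball (0 : ℂ) κ' ∧
        s * v ∈ ball (0 : ℂ) r ∧ s * v ∈ ball (0 : ℂ) r' := by
      intro s hs
      rw [mem_ball_zero_iff] at hs
      simp only [mem_ball_zero_iff, norm_mul]
      have e1 : ‖s‖ * ‖t‖ ≤ ρ * ‖t‖ := mul_le_mul_of_nonneg_right hs.le (norm_nonneg _)
      have e2 : ‖s‖ * ‖v‖ ≤ ρ * ‖v‖ := mul_le_mul_of_nonneg_right hs.le (norm_nonneg _)
      exact ⟨by linarith, by linarith, by linarith, by linarith⟩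
    have hlin : ∀ s : ℂ, DifferentiableAt ℂ (fun s : ℂ => (s * t, s * v)) s := fun s =>
      (differentiableAt_id.mul_const t).prodMk (differentiableAt_id.mul_const v)
    have hφd : DifferentiableOn ℂ (fun s : ℂ => Y (s * t, s * v)) (ball 0 ρ) := by
      intro s hs
      obtain ⟨m1, m2, m3, m4⟩ := hmem s hs
      have h1 : DifferentiableAt ℂ Y (s * t, s * v) :=
        hY.1.differentiableAt ((isOpen_ball.prod isOpen_ball).mem_nhds ⟨m1, m3⟩)
      exact (h1.comp s (hlin s)).differentiableWithinAt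
    have hψd : DifferentiableOn ℂ (fun s : ℂ => Y' (s * t, s * v)) (ball 0 ρ) := by
      intro s hs
      obtain ⟨m1, m2, m3, m4⟩ := hmem s hs
      have h1 : DifferentiableAt ℂ Y' (s * t, s * v) :=
        hY'.1.differentiableAt ((isOpen_ball.prod isOpen_ball).mem_nhds ⟨m2, m4⟩)
      exact (h1.comp s (hlin s)).differentiableWithinAt
    have hρ0 : 0 < ρ := by linarith
    have h0ρ : (0 : ℂ) ∈ ball (0 : ℂ) ρ := mem_ball_self hρ0
    -- the equation
    obtain ⟨F, hF⟩ : ∃ F : ℂ × ℂ → ℂ, F = fun p => P (p.1, p.2 * v) *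
      (Q (x0, 0) + p.2 * t * conj (P (x0, 0))) - Q (p.1, p.2 * v) * (P (x0, 0) - p.2 * t * conj (Q (x0, 0))) :=
      ⟨_, rfl⟩
    have hmapBI : ∀ p ∈ BI, (p.1, p.2 * v) ∈ BI := by
      intro p hp
      refine ⟨hp.1, ?_⟩
      have h1 := mem_ball_zero_iff.mp hp.2
      have h2 := mem_ball_zero_iff.mp hv1
      show p.2 * v ∈ ball (0 : ℂ) 1
      rw [mem_ball_zero_iff, norm_mul]
      have := norm_nonneg p.2
      have := norm_nonneg v
      nlinarith
    have hsm : ∀ p : ℂ × ℂ, DifferentiableAt ℂ (fun p : ℂ × ℂ => (p.1, p.2 * v)) p := fun p =>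
      differentiableAt_fst.prodMk (differentiableAt_snd.mul_const v)
    have hFd : DifferentiableOn ℂ F BI := by
      intro p hp
      have q1 : DifferentiableAt ℂ P (p.1, p.2 * v) :=
        hND.dP.differentiableAt (hopen.mem_nhds (hmapBI p hp))
      have q2 : DifferentiableAt ℂ Q (p.1, p.2 * v) :=
        hND.dQ.differentiableAt (hopen.mem_nhds (hmapBI p hp))
      have q3 : DifferentiableAt ℂ (fun p : ℂ × ℂ => P (p.1, p.2 * v)) p := q1.comp p (hsm p)
      have q4 : DifferentiableAt ℂ (fun p : ℂ × ℂ => Q (p.1, p.2 * v)) p := q2.comp p (hsm p)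
      have q5 : DifferentiableAt ℂ (fun p : ℂ × ℂ => Q (x0, 0) + p.2 * t * conj (P (x0, 0))) p :=
        ((differentiableAt_snd.mul_const t).mul_const _).const_add _
      have q6 : DifferentiableAt ℂ (fun p : ℂ × ℂ => P (x0, 0) - p.2 * t * conj (Q (x0, 0))) p :=
        ((differentiableAt_snd.mul_const t).mul_const _).const_sub _
      rw [hF]
      exact ((q3.mul q5).sub (q4.mul q6)).differentiableWithinAt
    have hx0BI : (x0, (0 : ℂ)) ∈ BI := ⟨hx0, h0b⟩
    have hFx : fderiv ℂ F (x0, 0) (1, 0) ≠ 0 := by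
      have g1 : HasFDerivAt F (fderiv ℂ F (x0, 0)) (x0, 0) :=
        (hFd.differentiableAt (hopen.mem_nhds hx0BI)).hasFDerivAt
      have g2 : HasDerivAt (fun x : ℂ => F (x, 0)) (fderiv ℂ F (x0, 0) (1, 0)) x0 := by
        have g3 : HasDerivAt (fun x : ℂ => (x, (0 : ℂ))) ((1 : ℂ), (0 : ℂ)) x0 :=
          (hasDerivAt_id x0).prodMk (hasDerivAt_const x0 (0 : ℂ))
        exact g1.comp_hasDerivAt x0 g3
      have g4 : HasDerivAt (fun x : ℂ => F (x, 0)) (deriv (sl P 0) x0 * Q (x0, 0) -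
          deriv (sl Q 0) x0 * P (x0, 0)) x0 := by
        have g5 := (hslP 0 h0b x0 hx0).hasDerivAt.mul_const (Q (x0, 0))
        have g6 := (hslQ 0 h0b x0 hx0).hasDerivAt.mul_const (P (x0, 0))
        have g7 : (fun x : ℂ => F (x, 0)) = fun x => sl P 0 x * Q (x0, 0) - sl Q 0 x * P (x0, 0) := by
          funext x
          rw [hF]
          simp [sl]
        rw [g7]
        exact g5.sub g6
      rw [g2.unique g4]
      have g8 := (p1 0 h0κ 0 h0r).1
      rw [hY.2.1] at g8
      unfold Wr at g8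
      intro h
      apply g8
      show sl Q 0 x0 * deriv (sl P 0) x0 - sl P 0 x0 * deriv (sl Q 0) x0 = 0
      have : sl Q 0 x0 = Q (x0, 0) := rfl
      have : sl P 0 x0 = P (x0, 0) := rfl
      simp only [sl] at h ⊢
      linear_combination h
    have hφ0 : Y ((0 : ℂ) * t, (0 : ℂ) * v) = x0 := by rw [zero_mul, zero_mul, hY.2.1]
    have hψ0 : Y' ((0 : ℂ) * t, (0 : ℂ) * v) = x0 := by rw [zero_mul, zero_mul, hY'.2.1]
    have hloc := BUQ_uni F BI hopen hFd x0 hx0BI hFx (fun s : ℂ => Y (s * t, s * v))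
      (fun s : ℂ => Y' (s * t, s * v))
      ((hφd.differentiableAt (isOpen_ball.mem_nhds h0ρ)).continuousAt)
      ((hψd.differentiableAt (isOpen_ball.mem_nhds h0ρ)).continuousAt) hφ0 hψ0 (by
        filter_upwards [isOpen_ball.mem_nhds h0ρ] with s hs
        obtain ⟨m1, m2, m3, m4⟩ := hmem s hs
        rw [hF]
        constructor
        · exact sub_eq_zero.mpr (hY.2.2 _ m1 _ m3).2
        · exact sub_eq_zero.mpr (hY'.2.2 _ m2 _ m4).2)
    have han1 : AnalyticOnNhd ℂ (fun s : ℂ => Y (s * t, s * v)) (ball 0 ρ) :=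
      hφd.analyticOnNhd isOpen_ball
    have han2 : AnalyticOnNhd ℂ (fun s : ℂ => Y' (s * t, s * v)) (ball 0 ρ) :=
      hψd.analyticOnNhd isOpen_ball
    have heq := han1.eqOn_of_preconnected_of_eventuallyEq han2 (convex_ball 0 ρ).isPreconnected h0ρ hloc
    have h1ρ : (1 : ℂ) ∈ ball (0 : ℂ) ρ := by
      rw [mem_ball_zero_iff, norm_one]
      exact hρ1
    have h := heq h1ρ
    simpa using h

end Pool.Agent.P2B
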