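import Pool.Agent.helper37.P2.SpecD
import Pool.Agent.helper80.P2.PSC
import Pool.Agent.helper1.P2.LSE

/-! Project P2 (MP_063734_an), row MN1: pointwise inequality for the energy density. -/

set_option autoImplicit false

open scoped ContDiff Topology
open MeasureTheory Filter Set Metric MvPolynomial Pool.Agent.helper37.QA

namespace Pool.Agent.P2

/-! ### Algebra -/

theorem MN1_ineq (n : ℕ) (a c : Fin n → ℂ) (E b1 b2 : ℝ) (hE : 0 < E) :
    ((∑ i, 2 * ((a i).re * (c i * 1).re + (a i).im * (c i * 1).im)) + E * (2 * b1)) ^ 2 +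
      ((∑ i, 2 * ((a i).re * (c i * Complex.I).re + (a i).im * (c i * Complex.I).im)) + E * (2 * b2)) ^ 2 +
      4 * ((∑ i, Complex.normSq (a i)) * (∑ i, Complex.normSq (c i)) -
        Complex.normSq (∑ i, (starRingEnd ℂ (a i)) * c i)) ≤
    4 * (((∑ i, Complex.normSq (c i)) + E * (b1 ^ 2 + b2 ^ 2)) * ((∑ i, Complex.normSq (a i)) + E)) := by
  set S : ℂ := ∑ i, (starRingEnd ℂ (a i)) * c i with hS
  have h1 : (∑ i, 2 * ((a i).re * (c i * 1).re + (a i).im * (c i * 1).im)) = 2 * S.re := by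
    rw [hS, Complex.re_sum, Finset.mul_sum]
    apply Finset.sum_congr rfl
    intro i _
    simp
  have h2 : (∑ i, 2 * ((a i).re * (c i * Complex.I).re + (a i).im * (c i * Complex.I).im)) = -(2 * S.im) := by
    rw [hS, Complex.im_sum, Finset.mul_sum, ← Finset.sum_neg_distrib]
    apply Finset.sum_congr rfl
    intro i _
    simp
    ring
  rw [h1, h2, Complex.normSq_apply]
  set p : ℝ := ∑ i, Complex.normSq (a i) with hp
  set q : ℝ := ∑ i, Complex.normSq (c i) with hq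
  have hp0 : 0 ≤ p := Finset.sum_nonneg fun i _ => Complex.normSq_nonneg _
  have hq0 : 0 ≤ q := Finset.sum_nonneg fun i _ => Complex.normSq_nonneg _
  have h3 : S.re ^ 2 + S.im ^ 2 ≤ p * q := by
    have h4 : S.re ^ 2 + S.im ^ 2 = ‖S‖ ^ 2 := by
      rw [← Complex.normSq_eq_norm_sq, Complex.normSq_apply]
      ring
    rw [h4]
    have h5 : ‖S‖ ≤ ∑ i, ‖a i‖ * ‖c i‖ := by
      rw [hS]
      refine (norm_sum_le _ _).trans (le_of_eq ?_)
      apply Finset.sum_congr rfl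
      intro i _
      rw [norm_mul, RCLike.norm_conj]
    have h6 := Finset.sum_mul_sq_le_sq_mul_sq Finset.univ (fun i => ‖a i‖) (fun i => ‖c i‖)
    have h7 : ‖S‖ ^ 2 ≤ (∑ i, ‖a i‖ * ‖c i‖) ^ 2 := pow_le_pow_left₀ (norm_nonneg _) h5 2
    have h8 : p = ∑ i, ‖a i‖ ^ 2 := by
      rw [hp]
      exact Finset.sum_congr rfl fun i _ => Complex.normSq_eq_norm_sq _
    have h9 : q = ∑ i, ‖c i‖ ^ 2 := by
      rw [hq]
      exact Finset.sum_congr rfl fun i _ => Complex.normSq_eq_norm_sq _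
    rw [h8, h9]
    exact h7.trans h6
  have h10 : 2 * (S.re * b1 - S.im * b2) ≤ q + p * (b1 ^ 2 + b2 ^ 2) := by
    by_cases hp1 : p = 0
    · have h11 : S.re ^ 2 + S.im ^ 2 ≤ 0 := by rw [hp1] at h3; simpa using h3
      have h12 : S.re = 0 := by nlinarith [sq_nonneg S.re, sq_nonneg S.im]
      have h13 : S.im = 0 := by nlinarith [sq_nonneg S.re, sq_nonneg S.im]
      rw [h12, h13, hp1]
      linarith
    · have hp2 : 0 < p := lt_of_le_of_ne hp0 (Ne.symm hp1)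
      have h14 : p * (2 * (S.re * b1 - S.im * b2)) ≤ p * (q + p * (b1 ^ 2 + b2 ^ 2)) := by
        nlinarith [sq_nonneg (S.re - p * b1), sq_nonneg (S.im + p * b2)]
      exact le_of_mul_le_mul_left h14 hp2
  nlinarith [mul_le_mul_of_nonneg_left h10 hE.le]

theorem MN1_LSE (n : ℕ) (G : ℂ → Fin n → ℂ) (B : ℂ → ℝ) (Ω : Set ℂ) (hΩ : IsOpen Ω) (h0 : (0 : ℂ) ∈ Ω)
    (hG : DifferentiableOn ℂ G Ω) (hB : ContDiffOn ℝ 2 B Ω) (hlap : 0 ≤ lap B 0) :
    nq (G 0) * nq (fun i => deriv (fun t => G t i) 0) -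
        Complex.normSq (∑ i, (starRingEnd ℂ (G 0 i)) * deriv (fun t => G t i) 0) ≤
      2 * (nq (G 0) + Real.exp (2 * B 0)) ^ 2 *
        lap (fun t => (1 / 2) * Real.log (nq (G t) + Real.exp (2 * B t))) 0 := by
  have hd1 := LSE_dir n G B Ω hΩ h0 hG hB 1
  have hd2 := LSE_dir n G B Ω hΩ h0 hG hB Complex.I
  unfold lap at hlap ⊢
  rw [hd1, hd2]
  have hnq : 0 ≤ nq (G 0) := Finset.sum_nonneg fun i _ => Complex.normSq_nonneg _
  have hE : 0 < Real.exp (2 * B 0) := Real.exp_pos _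
  set E : ℝ := Real.exp (2 * B 0) with hEdef
  have hN : 0 < nq (G 0) + E := by linarith
  set b1 : ℝ := fderiv ℝ B 0 1 with hb1
  set b2 : ℝ := fderiv ℝ B 0 Complex.I with hb2
  set B1 : ℝ := iteratedFDeriv ℝ 2 B 0 ![1, 1] with hB1
  set B2 : ℝ := iteratedFDeriv ℝ 2 B 0 ![Complex.I, Complex.I] with hB2
  have hB12 : 0 ≤ B1 + B2 := by linarith
  have hineq := MN1_ineq n (fun i => G 0 i) (fun i => deriv (fun t => G t i) 0) E b1 b2 hE
  have hsum : (∑ i, 2 * (Complex.normSq (deriv (fun t => G t i) 0 * 1) +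
          (G 0 i).re * (deriv (deriv (fun t => G t i)) 0 * 1 * 1).re +
          (G 0 i).im * (deriv (deriv (fun t => G t i)) 0 * 1 * 1).im)) +
      (∑ i, 2 * (Complex.normSq (deriv (fun t => G t i) 0 * Complex.I) +
          (G 0 i).re * (deriv (deriv (fun t => G t i)) 0 * Complex.I * Complex.I).re +
          (G 0 i).im * (deriv (deriv (fun t => G t i)) 0 * Complex.I * Complex.I).im)) =
      4 * ∑ i, Complex.normSq (deriv (fun t => G t i) 0) := by
    rw [← Finset.sum_add_distrib, Finset.mul_sum]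
    apply Finset.sum_congr rfl
    intro i _
    have h1 : deriv (deriv (fun t => G t i)) 0 * Complex.I * Complex.I = -deriv (deriv (fun t => G t i)) 0 := by
      rw [mul_assoc, Complex.I_mul_I]
      ring
    rw [h1, Complex.normSq_mul _ Complex.I, Complex.normSq_I]
    simp only [mul_one, Complex.neg_re, Complex.neg_im]
    ring
  have hfin : ∀ X1 X2 Y1 Y2 N D : ℝ, 0 < N → Y1 ^ 2 + Y2 ^ 2 + 4 * D ≤ (X1 + X2) * N →
      D ≤ 2 * N ^ 2 * (1 / 4 * (1 / 2 * (X1 * N - Y1 ^ 2) / N ^ 2 + 1 / 2 * (X2 * N - Y2 ^ 2) / N ^ 2)) := by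
    intro X1 X2 Y1 Y2 N D hN h
    have h1 : 2 * N ^ 2 * (1 / 4 * (1 / 2 * (X1 * N - Y1 ^ 2) / N ^ 2 + 1 / 2 * (X2 * N - Y2 ^ 2) / N ^ 2)) =
      (1 / 4) * ((X1 + X2) * N - (Y1 ^ 2 + Y2 ^ 2)) := by
      field_simp
      ring
    rw [h1]
    linarith
  apply hfin _ _ _ _ _ _ hN
  have h5 : (((∑ i, 2 * (Complex.normSq (deriv (fun t => G t i) 0 * 1) +
          (G 0 i).re * (deriv (deriv (fun t => G t i)) 0 * 1 * 1).re +
          (G 0 i).im * (deriv (deriv (fun t => G t i)) 0 * 1 * 1).im)) + E * (4 * b1 ^ 2 + 2 * B1)) +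
      ((∑ i, 2 * (Complex.normSq (deriv (fun t => G t i) 0 * Complex.I) +
          (G 0 i).re * (deriv (deriv (fun t => G t i)) 0 * Complex.I * Complex.I).re +
          (G 0 i).im * (deriv (deriv (fun t => G t i)) 0 * Complex.I * Complex.I).im)) +
          E * (4 * b2 ^ 2 + 2 * B2))) =
      4 * ((∑ i, Complex.normSq (deriv (fun t => G t i) 0)) + E * (b1 ^ 2 + b2 ^ 2)) + 2 * E * (B1 + B2) := by
    linear_combination hsum
  rw [h5]
  have h6 : (∑ i, Complex.normSq (G 0 i)) = nq (G 0) := rfl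
  have h6' : (∑ i, Complex.normSq (deriv (fun t => G t i) 0)) = nq (fun i => deriv (fun t => G t i) 0) := rfl
  rw [h6, h6'] at hineq
  rw [h6']
  refine hineq.trans ?_
  have h7 : 0 ≤ 2 * E * (B1 + B2) * (nq (G 0) + E) := by positivity
  nlinarith [h7]

theorem MN1_lag (a b : E3) :
    nq a * nq b - Complex.normSq (∑ i, (starRingEnd ℂ (a i)) * b i) = nq (crs a b) := by
  have h := ENT_lagid a b
  have e : (∑ i, (starRingEnd ℂ (a i)) * b i) = (starRingEnd ℂ) (a 0 * (starRingEnd ℂ) (b 0) +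
      a 1 * (starRingEnd ℂ) (b 1) + a 2 * (starRingEnd ℂ) (b 2)) := by
    simp only [Fin.sum_univ_three, map_add, map_mul, Complex.conj_conj]
  rw [e, Complex.normSq_conj]
  linarith

theorem MN1_tens1 (c c' Z E : E3) :
    (∑ p : Fin 3 × Fin 3, Complex.normSq (c' p.1 * Z p.2 + c p.1 * E p.2)) =
      nq c' * nq Z + nq c * nq E +
        2 * ((∑ i, (starRingEnd ℂ (c i)) * c' i) * (starRingEnd ℂ) (∑ j, (starRingEnd ℂ (Z j)) * E j)).re := by
  rw [Fintype.sum_prod_type]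
  have h : ∀ i j : Fin 3, Complex.normSq (c' i * Z j + c i * E j) =
      Complex.normSq (c' i) * Complex.normSq (Z j) + Complex.normSq (c i) * Complex.normSq (E j) +
        2 * (((starRingEnd ℂ (c i)) * c' i) * (starRingEnd ℂ) ((starRingEnd ℂ (Z j)) * E j)).re := by
    intro i j
    rw [Complex.normSq_add, Complex.normSq_mul, Complex.normSq_mul]
    congr 2
    congr 1
    simp only [map_mul, Complex.conj_conj]
    ring
  simp only [h]
  simp only [Finset.sum_add_distrib, ← Finset.mul_sum, ← Finset.sum_mul]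
  have h2 : (∑ i : Fin 3, ∑ j : Fin 3, (((starRingEnd ℂ (c i)) * c' i) * (starRingEnd ℂ) ((starRingEnd ℂ (Z j)) * E j)).re) =
      ((∑ i, (starRingEnd ℂ (c i)) * c' i) * (starRingEnd ℂ) (∑ j, (starRingEnd ℂ (Z j)) * E j)).re := by
    rw [map_sum, Finset.sum_mul_sum, Complex.re_sum]
    refine Finset.sum_congr rfl fun i _ => ?_
    rw [Complex.re_sum]
  rw [h2]
  rfl

theorem MN1_tens2 (c c' Z E : E3) :
    (∑ p : Fin 3 × Fin 3, (starRingEnd ℂ) (c p.1 * Z p.2) * (c' p.1 * Z p.2 + c p.1 * E p.2)) =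
      (∑ i, (starRingEnd ℂ (c i)) * c' i) * (nq Z : ℂ) + (nq c : ℂ) * (∑ j, (starRingEnd ℂ (Z j)) * E j) := by
  rw [Fintype.sum_prod_type, ENC_nqc, ENC_nqc]
  simp only [Fin.sum_univ_three, map_mul]
  ring

theorem MN1_tens (c c' Z E : E3) :
    (nq c * nq Z) * (∑ p : Fin 3 × Fin 3, Complex.normSq (c' p.1 * Z p.2 + c p.1 * E p.2)) -
      Complex.normSq (∑ p : Fin 3 × Fin 3, (starRingEnd ℂ) (c p.1 * Z p.2) * (c' p.1 * Z p.2 + c p.1 * E p.2)) =
      nq (crs c c') * nq Z ^ 2 + nq c ^ 2 * nq (crs Z E) := by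
  rw [MN1_tens1, MN1_tens2, ← MN1_lag c c', ← MN1_lag Z E]
  set α : ℂ := ∑ i, (starRingEnd ℂ (c i)) * c' i
  set β : ℂ := ∑ j, (starRingEnd ℂ (Z j)) * E j
  rw [Complex.normSq_add, Complex.normSq_mul, Complex.normSq_mul, Complex.normSq_ofReal, Complex.normSq_ofReal]
  have h : (α * (nq Z : ℂ) * (starRingEnd ℂ) ((nq c : ℂ) * β)).re = nq Z * nq c * (α * (starRingEnd ℂ) β).re := by
    rw [map_mul, Complex.conj_ofReal]
    have : α * (nq Z : ℂ) * ((nq c : ℂ) * (starRingEnd ℂ) β) = ((nq Z * nq c : ℝ) : ℂ) * (α * (starRingEnd ℂ) β) := by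
      push_cast
      ring
    rw [this, Complex.re_ofReal_mul]
  rw [h]
  ring

/-! ### The Levi form of `Psc` -/

theorem MN1_pq {d : ℕ} (f : Endo 2 d) (U : Set (PP 2)) (hU : Good0 f U) (n : ℕ) :
    ∀ Z ∈ cone U, 0 < pq (It f n Z) := by
  induction n with
  | zero =>
    intro Z hZ
    rw [PSC_It0]
    obtain ⟨h0, h1⟩ := hZ
    have h2 : 0 ≤ pq Z := add_nonneg (Complex.normSq_nonneg _) (Complex.normSq_nonneg _)
    refine lt_of_le_of_ne h2 fun h => ?_
    have h3 : Complex.normSq (Z 0) + Complex.normSq (Z 1) = 0 := h.symm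
    have a := Complex.normSq_nonneg (Z 0)
    have b := Complex.normSq_nonneg (Z 1)
    have h4 : Z 0 = 0 := Complex.normSq_eq_zero.1 (by linarith)
    have h5 : Z 1 = 0 := Complex.normSq_eq_zero.1 (by linarith)
    exact hU.2 Z h0 h4 h5 (subset_closure h1)
  | succ n ih =>
    intro Z hZ
    rw [PSC_ItF]
    exact ih _ (PSC_coneF f U hU.1 hZ)

theorem MN1_levi {d : ℕ} (f : Endo 2 d) (U : Set (PP 2)) (hUo : IsOpen U)
    (n : ℕ) (Λ : ℝ) (hpq : ∀ Z ∈ cone U, 0 < pq (It f n Z)) (Z : E3) (hZ : Z ∈ cone U) (E : E3)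
    (hE : cc f n Z E = 0) :
    nq (crs (cv f n Z) (fun i => fderiv ℂ (fun W : E3 => cv f n W i) Z E)) * nq Z ^ 2 +
        nq (cv f n Z) ^ 2 * nq (crs Z E) ≤
      2 * (nq (cv f n Z) * nq Z + Real.exp (-2 * Λ) * pq (It f n Z) ^ 2) ^ 2 * lev (Psc f n Λ) Z E := by
  let γ : ℂ → E3 := fun t => Z + t • E
  have hγ : ContDiff ℂ ∞ γ := contDiff_const.add (contDiff_id.smul contDiff_const)
  have hγ' : ∀ t, HasDerivAt γ E t := by
    intro t
    have h := ((hasDerivAt_id t).smul_const E).const_add Z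
    rwa [one_smul] at h
  let Ω : Set ℂ := γ ⁻¹' cone U
  have hΩ : IsOpen Ω := (cone_open hUo).preimage hγ.continuous
  have hγ0 : γ 0 = Z := by simp [γ]
  have h0Ω : (0 : ℂ) ∈ Ω := by
    show γ 0 ∈ cone U
    rw [hγ0]
    exact hZ
  have hIt : ∀ i : Fin 3, ContDiff ℂ ∞ fun t => It f n (γ t) i := fun i =>
    (PSC_Itc f n i).comp hγ
  have hcv : ∀ i : Fin 3, ContDiff ℂ ∞ fun t => cv f n (γ t) i := fun i =>
    (PSC_cvc f n i).comp hγ
  have hpqs : ContDiff ℝ ∞ fun t => pq (It f n (γ t)) :=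
    (PSC_normSq.comp ((hIt 0).restrict_scalars ℝ)).add
      (PSC_normSq.comp ((hIt 1).restrict_scalars ℝ))
  let B : ℂ → ℝ := fun t => Real.log (pq (It f n (γ t))) - Λ
  have hBs : ContDiffOn ℝ 2 B Ω := by
    refine ContDiffOn.sub (ContDiffOn.log ((hpqs.of_le ENat.LEInfty.out).contDiffOn) ?_)
      contDiffOn_const
    intro t ht
    exact (hpq _ ht).ne'
  have hB0 : lap (fun t => Real.log (pq (It f n (γ t)))) 0 = 0 := by
    have hne : It f n (γ 0) 0 ≠ 0 ∨ It f n (γ 0) 1 ≠ 0 := by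
      by_contra hcon
      push Not at hcon
      have h1 := hpq (γ 0) h0Ω
      unfold pq at h1
      rw [hcon.1, hcon.2] at h1
      simp at h1
    have h1 := MAU_core (fun t => It f n (γ t) 0) (fun t => It f n (γ t) 1) 0 (1 / 2) Ω hΩ h0Ω
      ((hIt 0).differentiable (by simp)).differentiableOn
      ((hIt 1).differentiable (by simp)).differentiableOn hne
    have h2 : (fun t => (1 / 2) * Real.log (Complex.normSq (It f n (γ t) 0) +
        Complex.normSq (It f n (γ t) 1)) / (1 / 2)) = fun t => Real.log (pq (It f n (γ t))) := by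
      funext t
      unfold pq
      ring
    rw [h2] at h1
    have hder : ∀ i : Fin 3, deriv (fun t => It f n (γ t) i) 0 =
        fderiv ℂ (fun W : E3 => It f n W i) (γ 0) E := by
      intro i
      have h3 := ENT_deriv f n i (hγ' 0).differentiableAt
      rw [(hγ' 0).deriv] at h3
      exact h3
    have h4 : It f n (γ 0) 0 * deriv (fun t => It f n (γ t) 1) 0 -
        It f n (γ 0) 1 * deriv (fun t => It f n (γ t) 0) 0 = 0 := by
      rw [hder, hder, hγ0]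
      have h5 : cc f n Z E = It f n Z 1 * fderiv ℂ (fun W => It f n W 0) Z E -
        It f n Z 0 * fderiv ℂ (fun W => It f n W 1) Z E := rfl
      rw [hE] at h5
      linear_combination h5
    rw [h1, h4]
    simp
  have hBlap : lap B 0 = 0 := by
    have h1 : ContDiffAt ℝ 2 (fun t => Real.log (pq (It f n (γ t)))) 0 :=
      ((hpqs.of_le ENat.LEInfty.out).contDiffAt).log (hpq _ h0Ω).ne'
    have h2 := PSC_lapsub (fun t => Real.log (pq (It f n (γ t)))) (fun _ => Λ) 0 h1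
      contDiffAt_const
    have h3 : lap (fun _ : ℂ => Λ) 0 = 0 := by
      unfold lap
      rw [iteratedFDeriv_two_apply, iteratedFDeriv_two_apply]
      simp
    rw [hB0, h3, sub_zero] at h2
    exact h2
  let e : Fin 3 × Fin 3 ≃ Fin (3 * 3) := finProdFinEquiv
  let G : ℂ → Fin (3 * 3) → ℂ := fun t k => cv f n (γ t) (e.symm k).1 * γ t (e.symm k).2
  have hG : DifferentiableOn ℂ G Ω := by
    rw [differentiableOn_pi]
    intro k
    refine ((hcv (e.symm k).1).differentiable (by simp)).differentiableOn.mul ?_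
    exact (((contDiff_apply ℂ ℂ (e.symm k).2).comp hγ).differentiable (by simp)).differentiableOn
  have hGn : ∀ t, nq (G t) = nq (cv f n (γ t)) * nq (γ t) := by
    intro t
    have h1 : nq (G t) = ∑ p : Fin 3 × Fin 3, Complex.normSq (cv f n (γ t) p.1 * γ t p.2) := by
      unfold nq
      rw [← e.sum_comp]
      refine Finset.sum_congr rfl fun p _ => ?_
      show Complex.normSq (cv f n (γ t) (e.symm (e p)).1 * γ t (e.symm (e p)).2) = _
      rw [e.symm_apply_apply]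
    rw [h1, Fintype.sum_prod_type]
    unfold nq
    rw [Finset.sum_mul_sum]
    refine Finset.sum_congr rfl fun i _ => Finset.sum_congr rfl fun j _ => ?_
    rw [Complex.normSq_mul]
  -- the derivative of `G`
  have hcvd : ∀ i : Fin 3, HasDerivAt (fun t => cv f n (γ t) i) (fderiv ℂ (fun W : E3 => cv f n W i) Z E) 0 := by
    intro i
    have h1 : HasFDerivAt (fun W : E3 => cv f n W i) (fderiv ℂ (fun W : E3 => cv f n W i) Z) (γ 0) := by
      rw [hγ0]
      exact ((PSC_cvc f n i).differentiable (by simp) Z).hasFDerivAt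
    exact h1.comp_hasDerivAt 0 (hγ' 0)
  have hγj : ∀ j : Fin 3, HasDerivAt (fun t => γ t j) (E j) 0 := fun j => hasDerivAt_pi.1 (hγ' 0) j
  have hGd : ∀ k : Fin (3 * 3), deriv (fun t => G t k) 0 =
      fderiv ℂ (fun W : E3 => cv f n W (e.symm k).1) Z E * Z (e.symm k).2 + cv f n Z (e.symm k).1 * E (e.symm k).2 := by
    intro k
    have h1 := (hcvd (e.symm k).1).mul (hγj (e.symm k).2)
    rw [hγ0] at h1
    exact h1.deriv
  have hL := MN1_LSE (3 * 3) G B Ω hΩ h0Ω hG hBs hBlap.ge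
  have hs1 : nq (fun k => deriv (fun t => G t k) 0) = ∑ p : Fin 3 × Fin 3,
      Complex.normSq (fderiv ℂ (fun W : E3 => cv f n W p.1) Z E * Z p.2 + cv f n Z p.1 * E p.2) := by
    unfold nq
    rw [← e.sum_comp]
    refine Finset.sum_congr rfl fun p _ => ?_
    show Complex.normSq (deriv (fun t => G t (e p)) 0) = _
    rw [hGd, e.symm_apply_apply]
  have hs2 : (∑ k, (starRingEnd ℂ (G 0 k)) * deriv (fun t => G t k) 0) = ∑ p : Fin 3 × Fin 3,
      (starRingEnd ℂ) (cv f n Z p.1 * Z p.2) *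
        (fderiv ℂ (fun W : E3 => cv f n W p.1) Z E * Z p.2 + cv f n Z p.1 * E p.2) := by
    rw [← e.sum_comp]
    refine Finset.sum_congr rfl fun p _ => ?_
    rw [hGd]
    show (starRingEnd ℂ) (cv f n (γ 0) (e.symm (e p)).1 * γ 0 (e.symm (e p)).2) * _ = _
    rw [e.symm_apply_apply, hγ0]
  rw [hs1, hs2, hGn, hγ0, MN1_tens (cv f n Z) (fun i => fderiv ℂ (fun W : E3 => cv f n W i) Z E) Z E] at hL
  -- the identity
  have hexp : ∀ t ∈ Ω, Real.exp (2 * B t) = Real.exp (-2 * Λ) * pq (It f n (γ t)) ^ 2 := by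
    intro t ht
    have hp := hpq _ ht
    show Real.exp (2 * (Real.log (pq (It f n (γ t))) - Λ)) = _
    rw [show 2 * (Real.log (pq (It f n (γ t))) - Λ) =
      -2 * Λ + (Real.log (pq (It f n (γ t))) + Real.log (pq (It f n (γ t)))) by ring,
      Real.exp_add, Real.exp_add, Real.exp_log hp, pow_two]
  have hid : (fun t => Psc f n Λ (γ t)) =ᶠ[𝓝 0] fun t =>
      (1 / 2) * Real.log (nq (G t) + Real.exp (2 * B t)) - Real.log (pq (It f n (γ t))) := by
    filter_upwards [hΩ.mem_nhds h0Ω] with t ht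
    have hp := hpq _ ht
    have h1 := hexp t ht
    have h2 : nq (cv f n (γ t)) * nq (γ t) / pq (It f n (γ t)) ^ 2 + Real.exp (-2 * Λ) =
        (nq (G t) + Real.exp (2 * B t)) / pq (It f n (γ t)) ^ 2 := by
      rw [h1, hGn, add_div, mul_div_cancel_right₀ _ (pow_ne_zero 2 hp.ne')]
    have h3 : 0 < nq (G t) + Real.exp (2 * B t) := by
      have h4 : 0 ≤ nq (G t) := by
        rw [hGn]
        exact mul_nonneg (ENT_nqnn _) (ENT_nqnn _)
      exact add_pos_of_nonneg_of_pos h4 (Real.exp_pos _)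
    unfold Psc
    rw [h2, Real.log_div h3.ne' (pow_ne_zero 2 hp.ne'), Real.log_pow]
    push_cast
    ring
  have hnqG : ContDiff ℝ 2 fun t => nq (G t) := by
    have h1 : (fun t => nq (G t)) = fun t => nq (cv f n (γ t)) * nq (γ t) := funext hGn
    rw [h1]
    have h2 : ∀ i : Fin 3, ContDiff ℝ ∞ fun t => Complex.normSq (cv f n (γ t) i) := fun i =>
      PSC_normSq.comp ((hcv i).restrict_scalars ℝ)
    have h3 : ∀ i : Fin 3, ContDiff ℝ ∞ fun t => Complex.normSq (γ t i) := fun i =>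
      PSC_normSq.comp (((contDiff_apply ℂ ℂ i).comp hγ).restrict_scalars ℝ)
    have h4 : ContDiff ℝ ∞ fun t => nq (cv f n (γ t)) * nq (γ t) := by
      simp only [ENC_nq3]
      exact (((h2 0).add (h2 1)).add (h2 2)).mul (((h3 0).add (h3 1)).add (h3 2))
    exact h4.of_le ENat.LEInfty.out
  have hA : ContDiffAt ℝ 2 (fun t => (1 / 2) * Real.log (nq (G t) + Real.exp (2 * B t))) 0 := by
    have h1 : ContDiffAt ℝ 2 B 0 := hBs.contDiffAt (hΩ.mem_nhds h0Ω)
    have h2 : ContDiffAt ℝ 2 (fun t => nq (G t) + Real.exp (2 * B t)) 0 :=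
      hnqG.contDiffAt.add (contDiffAt_const.mul h1).exp
    refine contDiffAt_const.mul (h2.log ?_)
    have h4 : 0 ≤ nq (G 0) := by
      rw [hGn]
      exact mul_nonneg (ENT_nqnn _) (ENT_nqnn _)
    exact (add_pos_of_nonneg_of_pos h4 (Real.exp_pos _)).ne'
  have hC : ContDiffAt ℝ 2 (fun t => Real.log (pq (It f n (γ t)))) 0 :=
    ((hpqs.of_le ENat.LEInfty.out).contDiffAt).log (hpq _ h0Ω).ne'
  rw [hexp 0 h0Ω, hγ0] at hL
  unfold lev
  show _ ≤ 2 * _ ^ 2 * lap (fun t => Psc f n Λ (γ t)) 0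
  rw [PSC_lapcongr hid, PSC_lapsub _ _ 0 hA hC, hB0, sub_zero]
  exact hL

/-! ### The charts -/

/-- index of the base coordinate -/
def MN1_ix (ι : Fin 2) : Fin 3 := if ι = 0 then 1 else 0

theorem MN1_cht (ι : Fin 2) (p : ℂ × ℂ) :
    HasFDerivAt (fun q : ℂ × ℂ => cht ι q.1 q.2)
      ((ContinuousLinearMap.fst ℂ ℂ ℂ).smulRight (Pi.single (MN1_ix ι) 1 : E3) +
        (ContinuousLinearMap.snd ℂ ℂ ℂ).smulRight (Pi.single 2 1 : E3)) p := by
  have h1 := ((ContinuousLinearMap.fst ℂ ℂ ℂ).smulRight (Pi.single (MN1_ix ι) 1 : E3) +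
        (ContinuousLinearMap.snd ℂ ℂ ℂ).smulRight (Pi.single 2 1 : E3)).hasFDerivAt (x := p)
  have h2 := h1.const_add (cht ι 0 0)
  refine h2.congr_of_eventuallyEq (Eventually.of_forall fun q => ?_)
  unfold cht MN1_ix
  funext i
  by_cases h : ι = 0
  · simp only [h, if_true]
    fin_cases i <;> simp
  · simp only [h, if_false]
    fin_cases i <;> simp

theorem MN1_chain (ι : Fin 2) (p : ℂ × ℂ) (g : E3 → ℂ) (hg : DifferentiableAt ℂ g (cht ι p.1 p.2)) (v : ℂ × ℂ) :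
    fderiv ℂ (fun q : ℂ × ℂ => g (cht ι q.1 q.2)) p v =
      fderiv ℂ g (cht ι p.1 p.2) (v.1 • (Pi.single (MN1_ix ι) 1 : E3) + v.2 • (Pi.single 2 1 : E3)) := by
  have h1 := hg.hasFDerivAt.comp p (MN1_cht ι p)
  have h2 : (g ∘ fun q : ℂ × ℂ => cht ι q.1 q.2) = fun q : ℂ × ℂ => g (cht ι q.1 q.2) := rfl
  rw [h2] at h1
  rw [h1.fderiv]
  rfl

theorem MN1_cx {d : ℕ} (f : Endo 2 d) (n : ℕ) (ι : Fin 2) (p : ℂ × ℂ) :
    P2U.cx (hP f n ι) (hQ f n ι) p = cv f n (cht ι p.1 p.2) (MN1_ix ι) := by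
  unfold P2U.cx P2U.dx
  have h0 := MN1_chain ι p (fun W => It f n W 0) (ENC_Itd f n 0 _) (1, 0)
  have h1 := MN1_chain ι p (fun W => It f n W 1) (ENC_Itd f n 1 _) (1, 0)
  simp only [one_smul, zero_smul, add_zero] at h0 h1
  show It f n (cht ι p.1 p.2) 1 * fderiv ℂ (fun q : ℂ × ℂ => It f n (cht ι q.1 q.2) 0) p (1, 0) -
    It f n (cht ι p.1 p.2) 0 * fderiv ℂ (fun q : ℂ × ℂ => It f n (cht ι q.1 q.2) 1) p (1, 0) = _
  rw [h0, h1]
  rfl

theorem MN1_cv {d : ℕ} (f : Endo 2 d) (n : ℕ) (ι : Fin 2) (p : ℂ × ℂ) :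
    P2U.cv (hP f n ι) (hQ f n ι) p = cv f n (cht ι p.1 p.2) 2 := by
  unfold P2U.cv P2U.dv
  have h0 := MN1_chain ι p (fun W => It f n W 0) (ENC_Itd f n 0 _) (0, 1)
  have h1 := MN1_chain ι p (fun W => It f n W 1) (ENC_Itd f n 1 _) (0, 1)
  simp only [one_smul, zero_smul, zero_add] at h0 h1
  show It f n (cht ι p.1 p.2) 1 * fderiv ℂ (fun q : ℂ × ℂ => It f n (cht ι q.1 q.2) 0) p (0, 1) -
    It f n (cht ι p.1 p.2) 0 * fderiv ℂ (fun q : ℂ × ℂ => It f n (cht ι q.1 q.2) 1) p (0, 1) = _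
  rw [h0, h1]
  rfl

/-- the vector of `ENC` -/
noncomputable def MN1_E {d : ℕ} (f : Endo 2 d) (n : ℕ) (ι : Fin 2) (Z : E3) : E3 :=
  cc f n Z (Pi.single (MN1_ix ι) 1) • (Pi.single 2 1 : E3) - cc f n Z (Pi.single 2 1) • (Pi.single (MN1_ix ι) 1 : E3)

theorem MN1_nn {d : ℕ} (f : Endo 2 d) (n : ℕ) (ι : Fin 2) (p : ℂ × ℂ) :
    P2U.nn (hP f n ι) (hQ f n ι) p =
      -(cv f n (cht ι p.1 p.2) (MN1_ix ι) * fderiv ℂ (fun W : E3 => cv f n W 2) (cht ι p.1 p.2) (MN1_E f n ι (cht ι p.1 p.2)) -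
        cv f n (cht ι p.1 p.2) 2 * fderiv ℂ (fun W : E3 => cv f n W (MN1_ix ι)) (cht ι p.1 p.2) (MN1_E f n ι (cht ι p.1 p.2))) := by
  have e1 : P2U.cx (hP f n ι) (hQ f n ι) = fun q : ℂ × ℂ => cv f n (cht ι q.1 q.2) (MN1_ix ι) := funext (MN1_cx f n ι)
  have e2 : P2U.cv (hP f n ι) (hQ f n ι) = fun q : ℂ × ℂ => cv f n (cht ι q.1 q.2) 2 := funext (MN1_cv f n ι)
  have hd : ∀ i : Fin 3, DifferentiableAt ℂ (fun W : E3 => cv f n W i) (cht ι p.1 p.2) := fun i =>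
    (PSC_cvc f n i).differentiable (by simp) _
  unfold P2U.nn P2U.ef
  rw [e1, e2]
  rw [MN1_chain ι p (fun W => cv f n W 2) (hd 2), MN1_chain ι p (fun W => cv f n W (MN1_ix ι)) (hd _)]
  have e3 : (cv f n (cht ι p.1 p.2) 2 • (Pi.single (MN1_ix ι) 1 : E3) +
      (-cv f n (cht ι p.1 p.2) (MN1_ix ι)) • (Pi.single 2 1 : E3)) = -(MN1_E f n ι (cht ι p.1 p.2)) := by
    unfold MN1_E
    have a : cc f n (cht ι p.1 p.2) (Pi.single (MN1_ix ι) 1) = cv f n (cht ι p.1 p.2) (MN1_ix ι) := rfl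
    have b : cc f n (cht ι p.1 p.2) (Pi.single 2 1) = cv f n (cht ι p.1 p.2) 2 := rfl
    rw [a, b, neg_smul]
    abel
  simp only [e3, map_neg]
  ring

theorem MN1_ccE {d : ℕ} (f : Endo 2 d) (n : ℕ) (ι : Fin 2) (Z : E3) : cc f n Z (MN1_E f n ι Z) = 0 := by
  unfold MN1_E
  have h : ∀ (a b : ℂ) (X Y : E3), cc f n Z (a • X - b • Y) = a * cc f n Z X - b * cc f n Z Y := by
    intro a b X Y
    rw [ENC_cc, ENC_cc f n Z X, ENC_cc f n Z Y]
    simp only [Pi.sub_apply, Pi.smul_apply, smul_eq_mul]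
    ring
  rw [h]
  ring

/-- elementary facts about the chart -/
theorem MN1_el (ι : Fin 2) (x y : ℂ) (c c' : E3) (R : ℝ) (hx : ‖x‖ ≤ 3) (hy : ‖y‖ ≤ R)
    (heu : c 0 * cht ι x y 0 + c 1 * cht ι x y 1 + c 2 * cht ι x y 2 = 0) :
    nq c ≤ (10 + R ^ 2) * (Complex.normSq (c (MN1_ix ι)) + Complex.normSq (c 2)) ∧
    nq (cht ι x y) ≤ 10 + R ^ 2 ∧
    Complex.normSq (c (MN1_ix ι)) + Complex.normSq (c 2) ≤
      nq (crs (cht ι x y) (c (MN1_ix ι) • (Pi.single 2 1 : E3) - c 2 • (Pi.single (MN1_ix ι) 1 : E3))) ∧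
    Complex.normSq (c (MN1_ix ι) * c' 2 - c 2 * c' (MN1_ix ι)) ≤ nq (crs c c') := by
  have hR : 0 ≤ R := (norm_nonneg y).trans hy
  have hx2 : Complex.normSq x ≤ 9 := by
    rw [Complex.normSq_eq_norm_sq]
    nlinarith [norm_nonneg x]
  have hy2 : Complex.normSq y ≤ R ^ 2 := by
    rw [Complex.normSq_eq_norm_sq]
    exact pow_le_pow_left₀ (norm_nonneg y) hy 2
  have hx0 := Complex.normSq_nonneg x
  have hy0 := Complex.normSq_nonneg y
  -- Cauchy-Schwarz for two terms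
  have cs : ∀ a b : ℂ, Complex.normSq (a * x + b * y) ≤ (9 + R ^ 2) * (Complex.normSq a + Complex.normSq b) := by
    intro a b
    have h1 : ‖a * x + b * y‖ ≤ ‖a‖ * ‖x‖ + ‖b‖ * ‖y‖ := by
      refine (norm_add_le _ _).trans ?_
      rw [norm_mul, norm_mul]
    have h2 : Complex.normSq (a * x + b * y) ≤ (‖a‖ * ‖x‖ + ‖b‖ * ‖y‖) ^ 2 := by
      rw [Complex.normSq_eq_norm_sq]
      exact pow_le_pow_left₀ (norm_nonneg _) h1 2
    have h3 : (‖a‖ * ‖x‖ + ‖b‖ * ‖y‖) ^ 2 ≤ (‖x‖ ^ 2 + ‖y‖ ^ 2) * (‖a‖ ^ 2 + ‖b‖ ^ 2) := by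
      nlinarith [sq_nonneg (‖a‖ * ‖y‖ - ‖b‖ * ‖x‖)]
    rw [← Complex.normSq_eq_norm_sq x, ← Complex.normSq_eq_norm_sq y, ← Complex.normSq_eq_norm_sq a,
      ← Complex.normSq_eq_norm_sq b] at h3
    refine h2.trans (h3.trans ?_)
    have h4 := Complex.normSq_nonneg a
    have h5 := Complex.normSq_nonneg b
    exact mul_le_mul_of_nonneg_right (by linarith) (by linarith)
  by_cases hι : ι = 0
  · have hix : MN1_ix ι = 1 := by unfold MN1_ix; rw [if_pos hι]
    have hch : cht ι x y = ![1, x, y] := by unfold cht; rw [if_pos hι]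
    rw [hch] at heu
    rw [hix, hch]
    have heu' : c 0 * 1 + c 1 * x + c 2 * y = 0 := heu
    have e0 : c 0 = -(c 1 * x + c 2 * y) := by linear_combination heu'
    refine ⟨?_, ?_, ?_, ?_⟩
    · rw [ENC_nq3, e0, Complex.normSq_neg]
      have := cs (c 1) (c 2)
      linarith
    · rw [ENC_nq3]
      simp
      linarith
    · rw [ENC_nq3]
      simp [crs]
      nlinarith [Complex.normSq_nonneg (x * c 1 + y * c 2)]
    · rw [ENC_nq3]
      have h1 := Complex.normSq_nonneg (crs c c' 1)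
      have h2 := Complex.normSq_nonneg (crs c c' 2)
      have h3 : crs c c' 0 = c 1 * c' 2 - c 2 * c' 1 := by simp [crs]
      rw [h3]
      linarith
  · have hix : MN1_ix ι = 0 := by unfold MN1_ix; rw [if_neg hι]
    have hch : cht ι x y = ![x, 1, y] := by unfold cht; rw [if_neg hι]
    rw [hch] at heu
    rw [hix, hch]
    have heu' : c 0 * x + c 1 * 1 + c 2 * y = 0 := heu
    have e0 : c 1 = -(c 0 * x + c 2 * y) := by linear_combination heu'
    refine ⟨?_, ?_, ?_, ?_⟩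
    · rw [ENC_nq3, e0, Complex.normSq_neg]
      have := cs (c 0) (c 2)
      linarith
    · rw [ENC_nq3]
      simp
      linarith
    · rw [ENC_nq3]
      simp [crs]
      nlinarith [Complex.normSq_nonneg (-(y * c 2) - x * c 0)]
    · rw [ENC_nq3]
      have h1 := Complex.normSq_nonneg (crs c c' 0)
      have h2 := Complex.normSq_nonneg (crs c c' 2)
      have h3 : crs c c' 1 = -(c 0 * c' 2 - c 2 * c' 0) := by simp [crs]
      rw [h3, Complex.normSq_neg]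
      linarith

theorem MN1 (hCHB : CHB_stmt) (hENC : ENC_stmt) (hPSC : PSC_stmt) (hCHN : CHN_stmt) : MN1_stmt := by
  intro d f U hd hU
  have _h := hCHN
  obtain ⟨R, hR1, hR⟩ := hCHB.1 d f U hU
  obtain ⟨C0, -, hC0⟩ := hPSC d f U hd hU
  refine ⟨4 * (10 + R ^ 2) ^ 2, by positivity, ?_⟩
  intro n Λ ι p hΛ hp1 hpU
  have hp2 : ‖p.2‖ ≤ R := hR ι p.1 p.2 hp1 hpU
  set Z : E3 := cht ι p.1 p.2 with hZ
  set c : E3 := cv f n Z with hc
  have heu : c 0 * Z 0 + c 1 * Z 1 + c 2 * Z 2 = 0 := by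
    rw [hc, ← ENC_cc, ENC_cc_self]
  set c' : E3 := fun i => fderiv ℂ (fun W : E3 => cv f n W i) Z (MN1_E f n ι Z) with hc'
  obtain ⟨h1, h2, h3, h4⟩ := MN1_el ι p.1 p.2 c c' R hp1 hp2 heu
  have hpq := MN1_pq f U hU n
  have hpz := hpq Z hpU
  have hlevi := MN1_levi f U hU.1.1 n Λ hpq Z hpU (MN1_E f n ι Z) (MN1_ccE f n ι Z)
  have hE : MN1_E f n ι Z = c (MN1_ix ι) • (Pi.single 2 1 : E3) - c 2 • (Pi.single (MN1_ix ι) 1 : E3) := rfl
  have hed : 2 * (d : ℝ) ^ n * pq (It f n Z) ^ 2 * ed f n (Psc f n Λ) Z = lev (Psc f n Λ) Z (MN1_E f n ι Z) := by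
    have h5 := (hENC d f U n (Psc f n Λ) _ hd hU (hC0 n Λ hΛ).1 Z hpU).1 (Pi.single (MN1_ix ι) 1) (Pi.single 2 1)
    have h6 : Complex.normSq (Z ⬝ᵥ crs (Pi.single (MN1_ix ι) 1) (Pi.single 2 1)) = 1 := by
      by_cases hι : ι = 0
      · have hix : MN1_ix ι = 1 := by unfold MN1_ix; rw [if_pos hι]
        have hch : Z = ![1, p.1, p.2] := by rw [hZ]; unfold cht; rw [if_pos hι]
        rw [hix, hch]
        simp [crs, dotProduct, Fin.sum_univ_three]
      · have hix : MN1_ix ι = 0 := by unfold MN1_ix; rw [if_neg hι]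
        have hch : Z = ![p.1, 1, p.2] := by rw [hZ]; unfold cht; rw [if_neg hι]
        rw [hix, hch]
        simp [crs, dotProduct, Fin.sum_univ_three]
    rw [h6, one_mul] at h5
    rw [← h5]
    unfold en
    have hd0 : (0 : ℝ) < (d : ℝ) ^ n := by
      have : (0 : ℝ) < d := by
        have : 0 < d := by omega
        exact_mod_cast this
      positivity
    show 2 * (d : ℝ) ^ n * pq (It f n Z) ^ 2 * (lev (Psc f n Λ) Z (MN1_E f n ι Z) / (2 * (d : ℝ) ^ n * pq (It f n Z) ^ 2)) = _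
    field_simp
  rw [hE] at hlevi hed
  set T : ℝ := 10 + R ^ 2 with hT
  set S : ℝ := Complex.normSq (c (MN1_ix ι)) + Complex.normSq (c 2) with hS
  have hT0 : 0 < T := by positivity
  have hS0 : 0 ≤ S := add_nonneg (Complex.normSq_nonneg _) (Complex.normSq_nonneg _)
  have hcn : 0 ≤ nq c := ENT_nqnn c
  have hZn : 0 ≤ nq Z := ENT_nqnn Z
  have hd0 : (0 : ℝ) < (d : ℝ) ^ n := by
    have : (0 : ℝ) < d := by
      have : 0 < d := by omega
      exact_mod_cast this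
    positivity
  -- the left hand side
  have hnn : ‖P2U.nn (hP f n ι) (hQ f n ι) p‖ ^ 2 = Complex.normSq (c (MN1_ix ι) * c' 2 - c 2 * c' (MN1_ix ι)) := by
    rw [MN1_nn, norm_neg, ← Complex.normSq_eq_norm_sq]
  have hSS : ‖P2U.cx (hP f n ι) (hQ f n ι) p‖ ^ 2 + ‖P2U.cv (hP f n ι) (hQ f n ι) p‖ ^ 2 = S := by
    rw [MN1_cx, MN1_cv, ← Complex.normSq_eq_norm_sq, ← Complex.normSq_eq_norm_sq]
  have hom : P2U.om (hP f n ι) (hQ f n ι) p = (pq (It f n Z) ^ 2)⁻¹ := by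
    unfold P2U.om
    rw [← Complex.normSq_eq_norm_sq, ← Complex.normSq_eq_norm_sq]
    rfl
  set ν : ℝ := Complex.normSq (c (MN1_ix ι) * c' 2 - c 2 * c' (MN1_ix ι)) with hν
  have hν0 : 0 ≤ ν := Complex.normSq_nonneg _
  have hHe : He f n ι p = (ν / S ^ 2 + S) * (pq (It f n Z) ^ 2)⁻¹ / (d : ℝ) ^ n := by
    unfold He P2U.Gd
    rw [hnn, hSS, hom]
  set N : ℝ := nq c * nq Z + Real.exp (-2 * Λ) * pq (It f n Z) ^ 2 with hN
  set κ : ℝ := nq (crs c c')
  set σ : ℝ := nq (crs Z (c (MN1_ix ι) • (Pi.single 2 1 : E3) - c 2 • (Pi.single (MN1_ix ι) 1 : E3)))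
  have hκ0 : 0 ≤ κ := ENT_nqnn _
  refine ⟨?_, ?_⟩
  · -- main inequality
    have hA : (ν / S ^ 2) * (nq c * nq Z) ^ 2 ≤ T ^ 2 * (κ * nq Z ^ 2) := by
      rcases hS0.eq_or_lt with h0 | h0
      · rw [← h0]
        simp only [ne_eq, OfNat.ofNat_ne_zero, not_false_eq_true, zero_pow, div_zero, zero_mul]
        positivity
      · have e1 : nq c ^ 2 ≤ T ^ 2 * S ^ 2 := by
          rw [← mul_pow]
          exact pow_le_pow_left₀ hcn h1 2
        have e2 : (ν / S ^ 2) * (nq c * nq Z) ^ 2 = ν * nq Z ^ 2 * (nq c ^ 2 / S ^ 2) := by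
          field_simp
        have e3 : nq c ^ 2 / S ^ 2 ≤ T ^ 2 := by
          rw [div_le_iff₀ (by positivity)]
          exact e1
        rw [e2]
        calc ν * nq Z ^ 2 * (nq c ^ 2 / S ^ 2) ≤ ν * nq Z ^ 2 * T ^ 2 :=
              mul_le_mul_of_nonneg_left e3 (by positivity)
          _ ≤ κ * nq Z ^ 2 * T ^ 2 := by gcongr
          _ = T ^ 2 * (κ * nq Z ^ 2) := by ring
    have hB : S * (nq c * nq Z) ^ 2 ≤ T ^ 2 * (nq c ^ 2 * σ) := by
      have e1 : nq Z ^ 2 ≤ T ^ 2 := pow_le_pow_left₀ hZn h2 2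
      calc S * (nq c * nq Z) ^ 2 = S * nq c ^ 2 * nq Z ^ 2 := by ring
        _ ≤ S * nq c ^ 2 * T ^ 2 := mul_le_mul_of_nonneg_left e1 (by positivity)
        _ ≤ σ * nq c ^ 2 * T ^ 2 := by gcongr
        _ = T ^ 2 * (nq c ^ 2 * σ) := by ring
    have hAB : (ν / S ^ 2 + S) * (nq c * nq Z) ^ 2 ≤ T ^ 2 * (2 * N ^ 2 * (2 * (d : ℝ) ^ n * pq (It f n Z) ^ 2 * ed f n (Psc f n Λ) Z)) := by
      rw [hed]
      calc (ν / S ^ 2 + S) * (nq c * nq Z) ^ 2 = (ν / S ^ 2) * (nq c * nq Z) ^ 2 + S * (nq c * nq Z) ^ 2 := by ring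
        _ ≤ T ^ 2 * (κ * nq Z ^ 2) + T ^ 2 * (nq c ^ 2 * σ) := add_le_add hA hB
        _ = T ^ 2 * (κ * nq Z ^ 2 + nq c ^ 2 * σ) := by ring
        _ ≤ _ := mul_le_mul_of_nonneg_left hlevi (by positivity)
    rw [hHe]
    have hpz2 : 0 < pq (It f n Z) ^ 2 := by positivity
    have e4 : (ν / S ^ 2 + S) * (pq (It f n Z) ^ 2)⁻¹ / (d : ℝ) ^ n * (nq c * nq Z) ^ 2 =
        ((ν / S ^ 2 + S) * (nq c * nq Z) ^ 2) / (pq (It f n Z) ^ 2 * (d : ℝ) ^ n) := by
      field_simp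
    rw [e4, div_le_iff₀ (by positivity)]
    refine hAB.trans (le_of_eq ?_)
    ring
  · intro h0
    have e1 : S = 0 := by
      rw [hS, h0]
      simp
    have e2 : ν = 0 := by
      rw [hν, h0]
      simp
    rw [hHe, e1, e2]
    simp

end Pool.Agent.P2
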