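import Pool.Agent.helper56.P2.SpecU

set_option autoImplicit false

/-!
# MP_063734_an, row p2:UGRN: Green in one variable
-/

namespace Pool.Agent.P2U

open MeasureTheory Set Filter Topology Metric Complex
open scoped ENNReal ContDiff

/-- derivative of a directional derivative -/
theorem UGRN_dd (W : ℂ → ℝ) (hW : ContDiff ℝ 2 W) (e z : ℂ) :
    fderiv ℝ (fun w => fderiv ℝ W w e) z e = fderiv ℝ (fderiv ℝ W) z e e := by
  have h1 : DifferentiableAt ℝ (fderiv ℝ W) z :=
    ((hW.fderiv_right (m := 1) (by norm_num)).differentiable (by norm_num)) z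
  rw [fderiv_clm_apply h1 (differentiableAt_const e)]
  simp

/-- a directional derivative of a C2 function is C1 -/
theorem UGRN_c1 (W : ℂ → ℝ) (hW : ContDiff ℝ 2 W) (e : ℂ) :
    ContDiff ℝ 1 (fun w => fderiv ℝ W w e) :=
  (hW.fderiv_right (m := 1) (by norm_num)).clm_apply contDiff_const

/-- two integrations by parts in one direction -/
theorem UGRN_ibp (φ W : ℂ → ℝ) (hφ : ContDiff ℝ 2 φ) (hW : ContDiff ℝ 2 W)
    (hc : HasCompactSupport φ) (e : ℂ) :
    Integrable (fun z => φ z * fderiv ℝ (fderiv ℝ W) z e e) ∧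
    Integrable (fun z => W z * fderiv ℝ (fderiv ℝ φ) z e e) ∧
    ∫ z, φ z * fderiv ℝ (fderiv ℝ W) z e e = ∫ z, W z * fderiv ℝ (fderiv ℝ φ) z e e := by
  have hW1 := UGRN_c1 W hW e
  have hφ1 := UGRN_c1 φ hφ e
  have hcφ1 : HasCompactSupport (fun w => fderiv ℝ φ w e) := hc.fderiv_apply (𝕜 := ℝ) e
  have hcW2 : Continuous (fun z => fderiv ℝ (fun w => fderiv ℝ W w e) z e) :=
    (hW1.continuous_fderiv (by norm_num)).clm_apply continuous_const
  have hcφ2 : Continuous (fun z => fderiv ℝ (fun w => fderiv ℝ φ w e) z e) :=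
    (hφ1.continuous_fderiv (by norm_num)).clm_apply continuous_const
  have hsφ2 : HasCompactSupport (fun z => fderiv ℝ (fun w => fderiv ℝ φ w e) z e) :=
    hcφ1.fderiv_apply (𝕜 := ℝ) e
  have i1 : Integrable (fun z => φ z * fderiv ℝ (fun w => fderiv ℝ W w e) z e) :=
    (hφ.continuous.mul hcW2).integrable_of_hasCompactSupport hc.mul_right
  have i2 : Integrable (fun z => fderiv ℝ φ z e * fderiv ℝ W z e) :=
    (hφ1.continuous.mul hW1.continuous).integrable_of_hasCompactSupport hcφ1.mul_right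
  have i3 : Integrable (fun z => φ z * fderiv ℝ W z e) :=
    (hφ.continuous.mul hW1.continuous).integrable_of_hasCompactSupport hc.mul_right
  have i4 : Integrable (fun z => W z * fderiv ℝ (fun w => fderiv ℝ φ w e) z e) :=
    (hW.continuous.mul hcφ2).integrable_of_hasCompactSupport hsφ2.mul_left
  have i5 : Integrable (fun z => fderiv ℝ W z e * fderiv ℝ φ z e) :=
    (hW1.continuous.mul hφ1.continuous).integrable_of_hasCompactSupport hcφ1.mul_left
  have i6 : Integrable (fun z => W z * fderiv ℝ φ z e) :=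
    (hW.continuous.mul hφ1.continuous).integrable_of_hasCompactSupport hcφ1.mul_left
  have s1 := integral_mul_fderiv_eq_neg_fderiv_mul_of_integrable (v := e) i2 i1 i3
    (fun x _ => hφ.differentiable (by norm_num) x) (fun x _ => hW1.differentiable (by norm_num) x)
  have s2 := integral_mul_fderiv_eq_neg_fderiv_mul_of_integrable (v := e) i5 i4 i6
    (fun x _ => hW.differentiable (by norm_num) x) (fun x _ => hφ1.differentiable (by norm_num) x)
  simp only [UGRN_dd W hW e] at i1 s1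
  simp only [UGRN_dd φ hφ e] at i4 s2
  refine ⟨i1, i4, ?_⟩
  rw [s1, s2]
  congr 1
  refine integral_congr_ae (Eventually.of_forall fun z => ?_)
  exact mul_comm _ _

/-- Green for two C2 functions, one of them with compact support -/
theorem UGRN_green (φ W : ℂ → ℝ) (hφ : ContDiff ℝ 2 φ) (hW : ContDiff ℝ 2 W)
    (hc : HasCompactSupport φ) : ∫ z, φ z * Lz W z = ∫ z, W z * Lz φ z := by
  obtain ⟨a1, a2, a3⟩ := UGRN_ibp φ W hφ hW hc 1
  obtain ⟨b1, b2, b3⟩ := UGRN_ibp φ W hφ hW hc I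
  have e1 : (fun z => φ z * Lz W z) = fun z => (φ z * fderiv ℝ (fderiv ℝ W) z 1 1 +
      φ z * fderiv ℝ (fderiv ℝ W) z I I) / 4 := by
    funext z
    unfold Lz
    ring
  have e2 : (fun z => W z * Lz φ z) = fun z => (W z * fderiv ℝ (fderiv ℝ φ) z 1 1 +
      W z * fderiv ℝ (fderiv ℝ φ) z I I) / 4 := by
    funext z
    unfold Lz
    ring
  rw [e1, e2, integral_div, integral_div, integral_add a1 b1, integral_add a2 b2, a3, b3]

/-- **UGRN** -/
theorem UGRN (hLEV : ULEV_stmt) : UGRN_stmt := by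
  intro f g R hf hg hne φ hφ hc hsub c
  rcases le_or_gt R 0 with hR | hR
  · have hemp : tsupport φ = ∅ := by
      rw [ball_eq_empty.mpr hR] at hsub
      exact subset_empty_iff.mp hsub
    have h0 : φ = fun _ => 0 := by
      have := tsupport_eq_empty_iff.mp hemp
      rw [this]
      rfl
    rw [h0]
    simp [Lz]
  obtain ⟨ρ, hρ, hρs⟩ := exists_pos_lt_subset_ball hR (isClosed_tsupport φ) hsub
  set V : ℂ → ℝ := fun q => Real.log (‖f q‖ ^ 2 + ‖g q‖ ^ 2) with hV
  have hpos : ∀ z ∈ ball (0 : ℂ) R, 0 < ‖f z‖ ^ 2 + ‖g z‖ ^ 2 := by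
    intro z hz
    rcases hne z hz with h | h
    · have := norm_pos_iff.mpr h
      positivity
    · have := norm_pos_iff.mpr h
      positivity
  have hVc : ∀ z ∈ ball (0 : ℂ) R, ContDiffAt ℝ 2 (fun q => V q - 2 * c) z := by
    intro z hz
    have h1 : ContDiffAt ℝ 2 f z := ((hf z hz).contDiffAt (n := 2)).restrict_scalars ℝ
    have h2 : ContDiffAt ℝ 2 g z := ((hg z hz).contDiffAt (n := 2)).restrict_scalars ℝ
    exact (((h1.norm_sq ℝ).add (h2.norm_sq ℝ)).log (hpos z hz).ne').sub contDiffAt_const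
  let χ : ContDiffBump (0 : ℂ) := ⟨ρ, (ρ + R) / 2, hρ.1, by have := hρ.2; linarith⟩
  have hχR : χ.rOut < R := by
    show (ρ + R) / 2 < R
    have := hρ.2
    linarith
  set W : ℂ → ℝ := fun z => χ z * (V z - 2 * c) with hWdef
  have hW : ContDiff ℝ 2 W := by
    rw [contDiff_iff_contDiffAt]
    intro z
    by_cases hz : z ∈ ball (0 : ℂ) R
    · exact χ.contDiff.contDiffAt.mul (hVc z hz)
    · have hzt : z ∉ tsupport χ := by
        rw [χ.tsupport_eq]
        intro h
        apply hz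
        rw [mem_ball]
        exact lt_of_le_of_lt (mem_closedBall.mp h) hχR
      have h0 : W =ᶠ[𝓝 z] fun _ => 0 := by
        have := notMem_tsupport_iff_eventuallyEq.mp hzt
        filter_upwards [this] with w hw
        simp [hWdef, hw]
      exact contDiffAt_const.congr_of_eventuallyEq h0
  have hWV : ∀ z ∈ ball (0 : ℂ) ρ, W =ᶠ[𝓝 z] fun q => V q - 2 * c := by
    intro z hz
    filter_upwards [isOpen_ball.mem_nhds hz] with w hw
    have : χ w = 1 := χ.one_of_mem_closedBall (ball_subset_closedBall hw)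
    simp [hWdef, this]
  have hLW : ∀ z ∈ ball (0 : ℂ) ρ, Lz W z = ‖g z * deriv f z - f z * deriv g z‖ ^ 2 /
      (‖f z‖ ^ 2 + ‖g z‖ ^ 2) ^ 2 := by
    intro z hz
    have hzR : z ∈ ball (0 : ℂ) R := ball_subset_ball hρ.2.le hz
    rw [← hLEV.2 f g z (hf z hzR) (hg z hzR) (hne z hzR)]
    have h1 : fderiv ℝ W =ᶠ[𝓝 z] fderiv ℝ V := by
      have h2 : fderiv ℝ W =ᶠ[𝓝 z] fderiv ℝ (fun q => V q - 2 * c) := (hWV z hz).fderiv
      refine h2.trans (Eventually.of_forall fun w => ?_)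
      exact fderiv_sub_const (2 * c)
    unfold Lz
    rw [h1.fderiv_eq]
  have hφ0 : ∀ z ∉ ball (0 : ℂ) ρ, φ z = 0 := fun z hz =>
    image_eq_zero_of_notMem_tsupport fun h => hz (hρs h)
  have hL0 : ∀ z ∉ ball (0 : ℂ) ρ, Lz φ z = 0 := by
    intro z hz
    have hz1 : z ∉ tsupport φ := fun h => hz (hρs h)
    have h0 : φ =ᶠ[𝓝 z] fun _ => 0 := notMem_tsupport_iff_eventuallyEq.mp hz1
    have h1 : fderiv ℝ φ =ᶠ[𝓝 z] fderiv ℝ (fun _ : ℂ => (0 : ℝ)) := h0.fderiv
    have h2 : fderiv ℝ (fun _ : ℂ => (0 : ℝ)) = fun _ => 0 := by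
      funext w
      simp
    unfold Lz
    rw [h1.fderiv_eq, h2]
    simp
  have key := UGRN_green φ W hφ hW hc
  have e1 : ∫ z, φ z * (‖g z * deriv f z - f z * deriv g z‖ ^ 2 / (‖f z‖ ^ 2 + ‖g z‖ ^ 2) ^ 2) =
      ∫ z, φ z * Lz W z := by
    refine integral_congr_ae (Eventually.of_forall fun z => ?_)
    by_cases hz : z ∈ ball (0 : ℂ) ρ
    · simp only [hLW z hz]
    · simp only [hφ0 z hz, zero_mul]
  have e2 : ∫ z, W z * Lz φ z = 2 * ∫ z, (Real.log (‖f z‖ ^ 2 + ‖g z‖ ^ 2) / 2 - c) * Lz φ z := by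
    rw [← integral_const_mul]
    refine integral_congr_ae (Eventually.of_forall fun z => ?_)
    by_cases hz : z ∈ ball (0 : ℂ) ρ
    · have : W z = V z - 2 * c := (hWV z hz).eq_of_nhds
      simp only [this, hV]
      ring
    · simp only [hL0 z hz, mul_zero]
  rw [e1, key, e2]

end Pool.Agent.P2U
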