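import Pool.Agent.helper83.P2.SpecX

/-!
# Project p2 (MP_063734_an): row XTL (telescoping)
-/

set_option autoImplicit false

namespace Pool.Agent.P2

open Metric Set Filter Topology Finset

noncomputable section

open Classical

theorem XTL_split (c : ℕ → ℝ) (n : ℕ) :
    ∑ i ∈ range (2 * n), c i = ∑ i ∈ range n, (c (2 * i) + c (2 * i + 1)) := by
  induction n with
  | zero => simp
  | succ n ih =>
    have h : 2 * (n + 1) = 2 * n + 1 + 1 := by ring
    rw [h, Finset.sum_range_succ, Finset.sum_range_succ, ih, Finset.sum_range_succ]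
    ring

theorem XTL_tel (a : ℕ → ℝ) (m0 M : ℕ) (h : m0 ≤ M) :
    ∑ m ∈ Finset.Ico m0 M, (a m - a (m + 1)) = a m0 - a M := by
  induction M, h using Nat.le_induction with
  | base => simp
  | succ K hK ih =>
    rw [Finset.sum_Ico_succ_top hK, ih]
    ring

/-- **XTL** -/
theorem XTL (hXFQ : XFQ_stmt) : XTL_stmt := by
  intro ι _ ν m0 M hM
  obtain ⟨A, hA⟩ : ∃ A : ℕ → ℝ, A = fun m =>
      4 * ((∑ i ∈ range (2 ^ (M - m)), ∑ b, Fq ν m i b ^ 2) / 2 ^ (M - m)) := ⟨_, rfl⟩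
  have hterm : ∀ m ∈ Finset.Ico m0 M,
      (∑ i ∈ range (2 ^ (M - m - 1)), ∑ b, (Fq ν m (2 * i) b - Fq ν m (2 * i + 1) b) ^ 2) /
        2 ^ (M - m - 1) = A m - A (m + 1) := by
    intro m hm
    rw [Finset.mem_Ico] at hm
    obtain ⟨n, hn⟩ : ∃ n, n = M - m - 1 := ⟨_, rfl⟩
    have h1 : M - m = n + 1 := by omega
    have h2 : M - (m + 1) = n := by omega
    rw [hA]
    simp only
    rw [← hn, h1, h2]
    have h3 : (2 : ℕ) ^ (n + 1) = 2 * 2 ^ n := by ring
    rw [h3, XTL_split]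
    have h4 : ∑ i ∈ range (2 ^ n), ∑ b, (Fq ν m (2 * i) b - Fq ν m (2 * i + 1) b) ^ 2 =
        2 * ∑ i ∈ range (2 ^ n), (∑ b, Fq ν m (2 * i) b ^ 2 + ∑ b, Fq ν m (2 * i + 1) b ^ 2) -
          4 * ∑ i ∈ range (2 ^ n), ∑ b, Fq ν (m + 1) i b ^ 2 := by
      rw [Finset.mul_sum, Finset.mul_sum, ← Finset.sum_sub_distrib]
      refine Finset.sum_congr rfl fun i _ => ?_
      rw [← Finset.sum_add_distrib, Finset.mul_sum, Finset.mul_sum, ← Finset.sum_sub_distrib]
      refine Finset.sum_congr rfl fun b _ => ?_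
      have h5 := (hXFQ ι ν m i).2.2 b
      have h6 : Fq ν (m + 1) i b = (Fq ν m (2 * i) b + Fq ν m (2 * i + 1) b) / 2 := by
        rw [← h5]; ring
      rw [h6]
      ring
    rw [h4]
    have h7 : (2 : ℝ) ^ n ≠ 0 := by positivity
    field_simp
    ring
  rw [Finset.sum_congr rfl hterm, XTL_tel A m0 M hM]
  have hle : ∀ m i, ∑ b, Fq ν m i b ^ 2 ≤ 1 := by
    intro m i
    obtain ⟨h0, h1, -⟩ := hXFQ ι ν m i
    refine le_trans (Finset.sum_le_sum fun b _ => ?_) h1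
    have h2 : Fq ν m i b ≤ 1 :=
      (Finset.single_le_sum (f := fun b => Fq ν m i b) (fun b _ => h0 b) (Finset.mem_univ b)).trans h1
    have h3 := h0 b
    nlinarith
  have hA0 : A m0 ≤ 4 := by
    rw [hA]
    simp only
    have h8 : ∑ i ∈ range (2 ^ (M - m0)), ∑ b, Fq ν m0 i b ^ 2 ≤ 2 ^ (M - m0) := by
      refine le_trans (Finset.sum_le_sum fun i _ => hle m0 i) ?_
      simp
    have h9 : (∑ i ∈ range (2 ^ (M - m0)), ∑ b, Fq ν m0 i b ^ 2) / 2 ^ (M - m0) ≤ 1 :=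
      div_le_one_of_le₀ h8 (by positivity)
    linarith
  have hAM : 0 ≤ A M := by
    rw [hA]
    simp only
    have : 0 ≤ ∑ i ∈ range (2 ^ (M - M)), ∑ b, Fq ν M i b ^ 2 :=
      Finset.sum_nonneg fun i _ => Finset.sum_nonneg fun b _ => sq_nonneg _
    positivity
  linarith

end

end Pool.Agent.P2
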